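import Mathlib

/-!
MP_1ad17e_al, proof of (LL): the weight series `F m` on a normal 2-subgroup `Q` and the data of the
minimal situation.
-/

set_option autoImplicit false

namespace E1adH39

open Subgroup
open scoped commutatorElement

variable {G : Type*} [Group G]

/-- `Wt Q S0 S1 M u a`: the element `u` has weight at least `a`. -/
inductive Wt (Q S0 S1 : Subgroup G) (M : ℕ) : G → ℕ → Prop
  | q {u : G} : u ∈ Q → Wt Q S0 S1 M u (M + 1)
  | s0 {u : G} : u ∈ S0 → Wt Q S0 S1 M u (2 * M + 1)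
  | s1 {u : G} : u ∈ S1 → Wt Q S0 S1 M u (2 * M + 2)
  | one (a : ℕ) : Wt Q S0 S1 M 1 a
  | comm {u v : G} {a b : ℕ} : Wt Q S0 S1 M u a → Wt Q S0 S1 M v b → Wt Q S0 S1 M ⁅u, v⁆ (a + b)
  | sq {u : G} {a : ℕ} : Wt Q S0 S1 M u a → Wt Q S0 S1 M (u * u) (a + M)
  | mul {u v : G} {a : ℕ} : Wt Q S0 S1 M u a → Wt Q S0 S1 M v a → Wt Q S0 S1 M (u * v) a
  | inv {u : G} {a : ℕ} : Wt Q S0 S1 M u a → Wt Q S0 S1 M u⁻¹ a
  | mono {u : G} {a b : ℕ} : Wt Q S0 S1 M u a → b ≤ a → Wt Q S0 S1 M u b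

/-- the subgroup of the elements of weight at least `m` -/
def F (Q S0 S1 : Subgroup G) (M m : ℕ) : Subgroup G where
  carrier := {u | Wt Q S0 S1 M u m}
  mul_mem' := Wt.mul
  one_mem' := Wt.one m
  inv_mem' := Wt.inv

section basics

variable {Q S0 S1 : Subgroup G} {M : ℕ}

theorem mem_F {m : ℕ} {u : G} : u ∈ F Q S0 S1 M m ↔ Wt Q S0 S1 M u m := Iff.rfl

theorem F_anti {m k : ℕ} (h : m ≤ k) : F Q S0 S1 M k ≤ F Q S0 S1 M m := fun _ hu => Wt.mono hu h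

theorem F_le (h0 : S0 ≤ Q) (h1 : S1 ≤ Q) (m : ℕ) : F Q S0 S1 M m ≤ Q := by
  intro u hu
  induction hu with
  | q h => exact h
  | s0 h => exact h0 h
  | s1 h => exact h1 h
  | one => exact one_mem _
  | comm _ _ h h' =>
    rw [commutatorElement_def]
    exact mul_mem (mul_mem (mul_mem h h') (inv_mem h)) (inv_mem h')
  | sq _ h => exact mul_mem h h
  | mul _ _ h h' => exact mul_mem h h'
  | inv _ h => exact inv_mem h
  | mono _ _ h => exact h

theorem Q_le_F {m : ℕ} (h : m ≤ M + 1) : Q ≤ F Q S0 S1 M m := fun _ hu => Wt.mono (Wt.q hu) h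

theorem S0_le_F {m : ℕ} (h : m ≤ 2 * M + 1) : S0 ≤ F Q S0 S1 M m :=
  fun _ hu => Wt.mono (Wt.s0 hu) h

theorem S1_le_F {m : ℕ} (h : m ≤ 2 * M + 2) : S1 ≤ F Q S0 S1 M m :=
  fun _ hu => Wt.mono (Wt.s1 hu) h

theorem F_comm {a b : ℕ} {u v : G} (hu : u ∈ F Q S0 S1 M a) (hv : v ∈ F Q S0 S1 M b) :
    ⁅u, v⁆ ∈ F Q S0 S1 M (a + b) := Wt.comm hu hv

theorem F_sq {a : ℕ} {u : G} (hu : u ∈ F Q S0 S1 M a) : u * u ∈ F Q S0 S1 M (a + M) := Wt.sq hu

theorem F_pow {a : ℕ} {u : G} (hu : u ∈ F Q S0 S1 M a) (j : ℕ) :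
    u ^ (2 ^ j) ∈ F Q S0 S1 M (a + M * j) := by
  induction j with
  | zero => simpa using hu
  | succ j ih =>
    have e : u ^ (2 ^ (j + 1)) = u ^ (2 ^ j) * u ^ (2 ^ j) := by
      rw [← pow_add]
      congr 1
      ring
    rw [e, Nat.mul_succ, ← add_assoc]
    exact F_sq ih

theorem Wt_conj (hQ : Q.Normal) (h0 : S0.Normal) (h1 : S1.Normal) (g : G) {u : G} {m : ℕ}
    (hu : Wt Q S0 S1 M u m) : Wt Q S0 S1 M (g * u * g⁻¹) m := by
  induction hu with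
  | q h => exact Wt.q (hQ.conj_mem _ h g)
  | s0 h => exact Wt.s0 (h0.conj_mem _ h g)
  | s1 h => exact Wt.s1 (h1.conj_mem _ h g)
  | one =>
    have e : g * 1 * g⁻¹ = 1 := by group
    rw [e]
    exact Wt.one _
  | @comm u v a b _ _ h h' =>
    have e : g * ⁅u, v⁆ * g⁻¹ = ⁅g * u * g⁻¹, g * v * g⁻¹⁆ := by
      simp only [commutatorElement_def]
      group
    rw [e]
    exact Wt.comm h h'
  | @sq u a _ h =>
    have e : g * (u * u) * g⁻¹ = (g * u * g⁻¹) * (g * u * g⁻¹) := by group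
    rw [e]
    exact Wt.sq h
  | @mul u v a _ _ h h' =>
    have e : g * (u * v) * g⁻¹ = (g * u * g⁻¹) * (g * v * g⁻¹) := by group
    rw [e]
    exact Wt.mul h h'
  | @inv u a _ h =>
    have e : g * u⁻¹ * g⁻¹ = (g * u * g⁻¹)⁻¹ := by group
    rw [e]
    exact Wt.inv h
  | mono _ h' h => exact Wt.mono h h'

theorem F_normal (hQ : Q.Normal) (h0 : S0.Normal) (h1 : S1.Normal) (m : ℕ) :
    (F Q S0 S1 M m).Normal := ⟨fun _ hu g => Wt_conj hQ h0 h1 g hu⟩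

end basics

/-- the data of section 1: `T` a 2-group of class at most `n` containing the normal subgroup `Q` and
`r`, where `r ^ (2 ^ l) ∈ Q`; with `x = r ^ (2 ^ (l - 1))` the group is generated by `Q`, `r`,
`g x g⁻¹` and also by `Q`, `x`, `g r g⁻¹`. -/
structure Dat (G : Type*) [Group G] where
  Q : Subgroup G
  T : Subgroup G
  n : ℕ
  l : ℕ
  r : G
  g : G
  hQ : Q.Normal
  hT : IsPGroup 2 T
  hQT : Q ≤ T
  hTn : T.lowerCentralSeries n = ⊥
  hr : r ∈ T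
  hl : 3 ≤ l
  hs : r ^ (2 ^ l) ∈ Q
  h1 : closure ((Q : Set G) ∪ {r, g * r ^ (2 ^ (l - 1)) * g⁻¹}) = ⊤
  h2 : closure ((Q : Set G) ∪ {r ^ (2 ^ (l - 1)), g * r * g⁻¹}) = ⊤

namespace Dat

variable (D : Dat G)

/-- `x` -/
def x : G := D.r ^ (2 ^ (D.l - 1))
/-- `s = x ^ 2` -/
def s : G := D.r ^ (2 ^ D.l)
/-- `M ≥ 2 n`, `M ≥ 2` -/
def M : ℕ := 2 * D.n + 2
/-- `N_0 = 2 ^ (l - 1)` -/
def N0 : ℕ := 2 ^ (D.l - 1)
/-- the conjugate of `r` -/
def r2 : G := D.g * D.r * D.g⁻¹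
/-- the conjugate of `T` -/
def T2 : Subgroup G := D.T.map (MulAut.conj D.g).toMonoidHom
/-- the normal closure of `x` -/
def L : Subgroup G := normalClosure {D.x}
/-- the subgroup generated by the elements of odd order of `L` -/
def L0 : Subgroup G := closure {o | o ∈ D.L ∧ Odd (orderOf o)}
/-- the normal closure of `s` -/
def S0 : Subgroup G := normalClosure {D.s}
/-- `[S_0, L_0]` -/
def S1 : Subgroup G := ⁅D.S0, D.L0⁆
/-- the weight series -/
def F (m : ℕ) : Subgroup G := E1adH39.F D.Q D.S0 D.S1 D.M m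

theorem s_mem_Q : D.s ∈ D.Q := D.hs

theorem x_mem_T : D.x ∈ D.T := pow_mem D.hr _

theorem x_sq : D.x * D.x = D.s := by
  unfold x s
  rw [← pow_add]
  congr 1
  have h : D.l = (D.l - 1) + 1 := by
    have := D.hl
    omega
  calc 2 ^ (D.l - 1) + 2 ^ (D.l - 1) = 2 ^ ((D.l - 1) + 1) := by ring
    _ = 2 ^ D.l := by rw [← h]

theorem x_eq : D.x = D.r ^ D.N0 := rfl

theorem S0_normal : D.S0.Normal := normalClosure_normal

theorem S0_le_Q : D.S0 ≤ D.Q := by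
  have := D.hQ
  refine normalClosure_le_normal ?_
  rintro _ rfl
  exact D.s_mem_Q

theorem L_normal : D.L.Normal := normalClosure_normal

theorem x_mem_L : D.x ∈ D.L := subset_normalClosure rfl

theorem s_mem_S0 : D.s ∈ D.S0 := subset_normalClosure rfl

theorem L0_le_L : D.L0 ≤ D.L := (closure_le _).2 fun _ h => h.1

theorem L0_normal : D.L0.Normal := by
  have := D.L_normal
  refine ⟨fun o ho g => ?_⟩
  unfold L0 at ho ⊢
  induction ho using closure_induction with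
  | mem o h =>
    refine subset_closure ⟨D.L_normal.conj_mem _ h.1 g, ?_⟩
    have e : orderOf (g * o * g⁻¹) = orderOf o := by
      have := orderOf_injective (MulAut.conj g).toMonoidHom (MulAut.conj g).injective o
      simpa using this
    rw [e]
    exact h.2
  | one =>
    have e : g * 1 * g⁻¹ = 1 := by group
    rw [e]
    exact one_mem _
  | mul a b _ _ ha hb =>
    have e : g * (a * b) * g⁻¹ = (g * a * g⁻¹) * (g * b * g⁻¹) := by group
    rw [e]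
    exact mul_mem ha hb
  | inv a _ ha =>
    have e : g * a⁻¹ * g⁻¹ = (g * a * g⁻¹)⁻¹ := by group
    rw [e]
    exact inv_mem ha

theorem S1_normal : D.S1.Normal := by
  have := D.S0_normal
  have := D.L0_normal
  exact commutator_normal _ _

theorem S1_le_S0 : D.S1 ≤ D.S0 := by
  have := D.S0_normal
  exact commutator_le_left _ _

theorem S1_le_Q : D.S1 ≤ D.Q := D.S1_le_S0.trans D.S0_le_Q

theorem F_normal (m : ℕ) : (D.F m).Normal := E1adH39.F_normal D.hQ D.S0_normal D.S1_normal m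

theorem F_anti {m k : ℕ} (h : m ≤ k) : D.F k ≤ D.F m := E1adH39.F_anti h

theorem F_le (m : ℕ) : D.F m ≤ D.Q := E1adH39.F_le D.S0_le_Q D.S1_le_Q m

theorem Q_le_F {m : ℕ} (h : m ≤ D.M + 1) : D.Q ≤ D.F m := E1adH39.Q_le_F h

theorem S0_le_F {m : ℕ} (h : m ≤ 2 * D.M + 1) : D.S0 ≤ D.F m := E1adH39.S0_le_F h

theorem S1_le_F {m : ℕ} (h : m ≤ 2 * D.M + 2) : D.S1 ≤ D.F m := E1adH39.S1_le_F h

theorem F_comm {a b : ℕ} {u v : G} (hu : u ∈ D.F a) (hv : v ∈ D.F b) : ⁅u, v⁆ ∈ D.F (a + b) :=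
  E1adH39.F_comm hu hv

theorem F_sq {a : ℕ} {u : G} (hu : u ∈ D.F a) : u * u ∈ D.F (a + D.M) := E1adH39.F_sq hu

theorem F_pow {a : ℕ} {u : G} (hu : u ∈ D.F a) (j : ℕ) : u ^ (2 ^ j) ∈ D.F (a + D.M * j) :=
  E1adH39.F_pow hu j

theorem s_mem_F {m : ℕ} (h : m ≤ 2 * D.M + 1) : D.s ∈ D.F m := D.S0_le_F h D.s_mem_S0

theorem conj_mem_F {m : ℕ} {u : G} (hu : u ∈ D.F m) (g : G) : g * u * g⁻¹ ∈ D.F m :=
  (D.F_normal m).conj_mem _ hu g

/-- good elements (`a`, `b` are indices of the lower central series, so `al = a + 1`) -/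
structure Gd (om : ℕ) (v : G) (a b : ℕ) : Prop where
  hom : D.M + 1 ≤ om
  hv : v ∈ D.F om
  hT1 : v ∈ D.T.lowerCentralSeries a
  hT2 : ∃ v' ∈ D.F om, v' ∈ D.T2.lowerCentralSeries b ∧ v' * v⁻¹ ∈ D.F (om + 1)
  hI : D.N0 * om ≤ D.M * ((D.N0 - 1) * (a + 1) + (b + 1)) + 2 * D.N0 * (a + 1)

/-- the generators of `F m` modulo `F (m + 1)` -/
def X (m : ℕ) : Set G :=
  {z | (∃ om v a b j, D.Gd om v a b ∧ om + D.M * j = m ∧ z = v ^ (2 ^ j)) ∨
    ∃ j, 2 * D.M + 1 + D.M * j = m ∧ z = D.s ^ (2 ^ j)}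

end Dat

end E1adH39
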