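import Pool.Agent.Lib.MP_1ad17e_al_h39.Defs

/-! Row B1: `S_1 = [S_1, L_0]`, and `G / Q L_0` is a 2-group. -/

set_option autoImplicit false

namespace E1adH39

open Subgroup
open scoped commutatorElement

variable {G : Type*} [Group G]

/-- every element of `Q` has 2-power order -/
private theorem B1_pow_two (D : Dat G) {c : G} (hc : c ∈ D.Q) : ∃ m : ℕ, c ^ (2 ^ m) = 1 := by
  obtain ⟨m, hm⟩ := D.hT ⟨c, D.hQT hc⟩
  refine ⟨m, ?_⟩
  have := congrArg Subtype.val hm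
  simpa using this

/-- a generator of `L0` -/
private theorem B1_gen (D : Dat G) {o : G} (ho : o ∈ D.L) (hodd : Odd (orderOf o)) {u : G}
    (hu : u ∈ D.S0) : ⁅u, o⁆ ∈ ⁅D.S1, D.L0⁆ := by
  have hS1n := D.S1_normal
  have hL0n := D.L0_normal
  have hS0n := D.S0_normal
  have hZ : (⁅D.S1, D.L0⁆).Normal := commutator_normal _ _
  have ho0 : o ∈ D.L0 := subset_closure ⟨ho, hodd⟩
  have hc1 : ⁅u, o⁆ ∈ D.S1 := commutator_mem_commutator hu ho0
  obtain ⟨m, hm⟩ := B1_pow_two D (D.S1_le_Q hc1)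
  set Z : Subgroup G := ⁅D.S1, D.L0⁆ with hZdef
  have hcz : ⁅⁅u, o⁆, o⁆ ∈ Z := commutator_mem_commutator hc1 ho0
  let π := QuotientGroup.mk' Z
  have hk : ∀ z : G, π z = 1 ↔ z ∈ Z := fun z => QuotientGroup.eq_one_iff z
  have hcomm : Commute (π ⁅u, o⁆) (π o) := by
    have h1 : π ⁅⁅u, o⁆, o⁆ = 1 := (hk _).2 hcz
    rw [map_commutatorElement] at h1
    exact commutatorElement_eq_one_iff_commute.1 h1
  have hco : ⁅u, o⁆ * o = u * o * u⁻¹ := by
    simp only [commutatorElement_def]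
    group
  have hko : (⁅u, o⁆ * o) ^ (orderOf o) = 1 := by
    rw [hco, conj_pow, pow_orderOf_eq_one]
    group
  have h2 : (π ⁅u, o⁆) ^ (orderOf o) = 1 := by
    have h3 : (π ⁅u, o⁆ * π o) ^ (orderOf o) = 1 := by
      rw [← map_mul, ← map_pow, hko, map_one]
    rw [hcomm.mul_pow, ← map_pow π o, pow_orderOf_eq_one, map_one, mul_one] at h3
    exact h3
  have h4 : (π ⁅u, o⁆) ^ (2 ^ m) = 1 := by
    rw [← map_pow, hm, map_one]
  have h5 : orderOf (π ⁅u, o⁆) ∣ Nat.gcd (orderOf o) (2 ^ m) :=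
    Nat.dvd_gcd (orderOf_dvd_of_pow_eq_one h2) (orderOf_dvd_of_pow_eq_one h4)
  have h6 : Nat.Coprime (orderOf o) (2 ^ m) :=
    Nat.Coprime.pow_right _ (Nat.coprime_two_right.2 hodd)
  rw [h6] at h5
  have h7 : π ⁅u, o⁆ = 1 := orderOf_eq_one_iff.1 (Nat.dvd_one.1 h5)
  exact (hk _).1 h7

/-- RECIPE. `Z := ⁅S1, L0⁆` is normal. For `o ∈ L` of odd order `k` and `u ∈ S0` put `c := ⁅u, o⁆ ∈ S1`:
`u o u⁻¹ = c o`, and modulo `Z` the element `c` commutes with `o`, so `1 = u o^k u⁻¹ = c^k` modulo `Z`;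
`c ∈ Q` has 2-power order, so `c ∈ Z`. Then `{o | ∀ u ∈ S0, ⁅u, o⁆ ∈ Z}` contains the generators of `L0`
and is closed under products and inverses (`Z` normal). -/
theorem S1_eq [Finite G] (D : Dat G) : D.S1 = ⁅D.S1, D.L0⁆ := by
  have hS1n := D.S1_normal
  have hL0n := D.L0_normal
  have hS0n := D.S0_normal
  have hZ : (⁅D.S1, D.L0⁆).Normal := commutator_normal _ _
  refine le_antisymm ?_ (commutator_le_left _ _)
  have key : ∀ o ∈ D.L0, ∀ u ∈ D.S0, ⁅u, o⁆ ∈ ⁅D.S1, D.L0⁆ := by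
    intro o ho
    unfold Dat.L0 at ho
    induction ho using closure_induction with
    | mem o h =>
      intro u hu
      exact B1_gen D h.1 h.2 hu
    | one =>
      intro u _
      rw [commutatorElement_one_right]
      exact one_mem _
    | mul a b _ _ ha hb =>
      intro u hu
      have e : ⁅u, a * b⁆ = ⁅u, a⁆ * (a * ⁅u, b⁆ * a⁻¹) := by
        simp only [commutatorElement_def]
        group
      rw [e]
      exact mul_mem (ha u hu) (hZ.conj_mem _ (hb u hu) a)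
    | inv a _ ha =>
      intro u hu
      have e : ⁅u, a⁻¹⁆ = a⁻¹ * ⁅u, a⁆⁻¹ * a⁻¹⁻¹ := by
        simp only [commutatorElement_def]
        group
      rw [e]
      exact hZ.conj_mem _ (inv_mem (ha u hu)) a⁻¹
  have h : ⁅D.S0, D.L0⁆ ≤ ⁅D.S1, D.L0⁆ := commutator_le.2 fun u hu o ho => key o ho u hu
  exact h

/-- RECIPE. In `G / (Q ⊔ L0)`: `h1` shows that `G = closure (Q ∪ {r} ∪ L)` so every `h` is `q * y * r^i`
modulo the normal subgroup `Q ⊔ L`; `r ^ N0 = x ∈ L`, hence `h ^ N0 ∈ Q ⊔ L`, `h ^ N0 = q * y`, `y ∈ L`,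
and `y ^ (2 ^ k)` has odd order for some `k`, so it is in `L0`. -/
theorem pow_mem_sup [Finite G] (D : Dat G) (h : G) : ∃ k : ℕ, h ^ (2 ^ k) ∈ D.Q ⊔ D.L0 := by
  have hQn := D.hQ
  have hLn := D.L_normal
  have hL0n := D.L0_normal
  have hW : (D.Q ⊔ D.L).Normal := inferInstance
  have hW0 : (D.Q ⊔ D.L0).Normal := inferInstance
  -- step 1
  have h1 : h ^ D.N0 ∈ D.Q ⊔ D.L := by
    let π := QuotientGroup.mk' (D.Q ⊔ D.L)
    have hk : ∀ z : G, π z = 1 ↔ z ∈ D.Q ⊔ D.L := fun z => QuotientGroup.eq_one_iff z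
    have hx : π D.x = 1 := (hk _).2 (le_sup_right (a := D.Q) D.x_mem_L)
    have h2 : closure ((D.Q : Set G) ∪ {D.r, D.g * D.r ^ (2 ^ (D.l - 1)) * D.g⁻¹}) ≤
        (zpowers (π D.r)).comap π := by
      refine (closure_le _).2 ?_
      rintro z (hz | hz | hz)
      · have : π z = 1 := (hk _).2 (le_sup_left (a := D.Q) hz)
        show π z ∈ zpowers (π D.r)
        rw [this]
        exact one_mem _
      · show π z ∈ zpowers (π D.r)
        rw [hz]
        exact mem_zpowers _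
      · have : π z = 1 := by
          rw [hz]
          exact (hk _).2 (le_sup_right (a := D.Q) (hLn.conj_mem _ D.x_mem_L D.g))
        show π z ∈ zpowers (π D.r)
        rw [this]
        exact one_mem _
    rw [D.h1] at h2
    obtain ⟨i, hi⟩ := h2 (mem_top h)
    have hi' : (π D.r) ^ i = π h := hi
    refine (hk _).1 ?_
    rw [map_pow, ← hi', ← zpow_natCast, ← zpow_mul, mul_comm, zpow_mul, zpow_natCast, ← map_pow,
      ← D.x_eq, hx, one_zpow]
  -- step 2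
  obtain ⟨q, hq, y, hy, hqy⟩ := Subgroup.mem_sup_of_normal_right.1 h1
  obtain ⟨k, m, hm, hkm⟩ := Nat.exists_eq_two_pow_mul_odd (orderOf_pos y).ne'
  have hy0 : y ^ (2 ^ k) ∈ D.L0 := by
    refine subset_closure ⟨pow_mem hy _, ?_⟩
    rw [orderOf_pow, hkm]
    have e : (2 ^ k * m).gcd (2 ^ k) = 2 ^ k := by
      exact Nat.gcd_eq_right (dvd_mul_right _ _)
    rw [e, Nat.mul_div_cancel_left _ (by positivity)]
    exact hm
  refine ⟨(D.l - 1) + k, ?_⟩
  let π := QuotientGroup.mk' (D.Q ⊔ D.L0)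
  have hk : ∀ z : G, π z = 1 ↔ z ∈ D.Q ⊔ D.L0 := fun z => QuotientGroup.eq_one_iff z
  refine (hk _).1 ?_
  have hN : 2 ^ ((D.l - 1) + k) = D.N0 * 2 ^ k := by
    unfold Dat.N0
    rw [pow_add]
  rw [hN, pow_mul, map_pow, ← hqy, map_mul]
  have hq1 : π q = 1 := (hk _).2 (le_sup_left (a := D.Q) hq)
  rw [hq1, one_mul, ← map_pow]
  exact (hk _).2 (le_sup_right (a := D.Q) hy0)

end E1adH39
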