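import Pool.Agent.Lib.MP_1ad17e_al_h39.RowG3
import Pool.Agent.Lib.MP_1ad17e_al_E.BaerSuzuki
import Pool.Agent.Lib.MP_1ad17e_al_E.SecSix

/-! Row B3: the local theorem `LL` from `main_local`. -/

set_option autoImplicit false

universe u

namespace E1adH39

open Subgroup
open scoped commutatorElement

private theorem b3_lcs_mono {G : Type u} [Group G] {A B : Subgroup G} (h : A ≤ B) (m : ℕ) :
    A.lowerCentralSeries m ≤ B.lowerCentralSeries m := by
  induction m with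
  | zero => exact h
  | succ m ih => exact Subgroup.commutator_mono ih h

/-- a subgroup generated by `Q`, `r` and a conjugate of `x` which is not a 2-group with `x` is the
whole group, if all proper subgroups are good -/
private theorem b3_top {H : Type u} [Group H] [Finite H] (Q T N : Subgroup H) [N.Normal]
    (hT : IsPGroup 2 T) (l : ℕ) (r : H) (hr : r ∈ T)
    (hgood : ∀ K : Subgroup H, K ≠ ⊤ → Q ≤ K → ∀ hrK : r ∈ K,
      ∀ g ∈ normalClosure ({(⟨r, hrK⟩ : K) ^ (2 ^ (l - 1))} : Set K),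
        ∃ m : ℕ, g ^ (2 ^ m) ∈ N.subgroupOf K)
    (g : H) (hg : ¬ ∀ z ∈ (closure {r ^ (2 ^ (l - 1)), g * r ^ (2 ^ (l - 1)) * g⁻¹} : Subgroup H),
      ∃ m : ℕ, z ^ (2 ^ m) ∈ N) :
    closure ((Q : Set H) ∪ {r, g * r ^ (2 ^ (l - 1)) * g⁻¹}) = ⊤ := by
  by_contra hne
  obtain ⟨K, hK⟩ : ∃ K, K = closure ((Q : Set H) ∪ {r, g * r ^ (2 ^ (l - 1)) * g⁻¹}) := ⟨_, rfl⟩
  rw [← hK] at hne
  have hQK : Q ≤ K := by
    intro q hq
    rw [hK]
    exact subset_closure (Or.inl hq)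
  have hrK : r ∈ K := by
    rw [hK]
    exact subset_closure (Or.inr (Or.inl rfl))
  have hx'K : g * r ^ (2 ^ (l - 1)) * g⁻¹ ∈ K := by
    rw [hK]
    exact subset_closure (Or.inr (Or.inr rfl))
  have hX := hgood K hne hQK hrK
  obtain ⟨x, hx⟩ : ∃ x : K, x = (⟨r, hrK⟩ : K) ^ (2 ^ (l - 1)) := ⟨_, rfl⟩
  rw [← hx] at hX
  obtain ⟨x', hx'⟩ : ∃ x' : K, x' = ⟨g * r ^ (2 ^ (l - 1)) * g⁻¹, hx'K⟩ := ⟨_, rfl⟩
  have hxv : (x : H) = r ^ (2 ^ (l - 1)) := by
    rw [hx]
    rfl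
  have hx'v : (x' : H) = g * r ^ (2 ^ (l - 1)) * g⁻¹ := by
    rw [hx']
  -- `x'` is a 2-element
  obtain ⟨a, ha⟩ : ∃ a : ℕ, x' ^ (2 ^ a) = 1 := by
    obtain ⟨a, ha⟩ := hT ⟨r ^ (2 ^ (l - 1)), pow_mem hr _⟩
    refine ⟨a, Subtype.ext ?_⟩
    have h1 : (r ^ (2 ^ (l - 1))) ^ (2 ^ a) = 1 := congrArg Subtype.val ha
    show (x' : H) ^ (2 ^ a) = 1
    rw [hx'v, conj_pow, h1]
    group
  let NK : Subgroup K := N.subgroupOf K
  have hNK : NK.Normal := normal_subgroupOf
  let φ : K →* K ⧸ NK := QuotientGroup.mk' NK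
  let X : Subgroup K := normalClosure {x}
  have hXn : X.Normal := normalClosure_normal
  have hA : IsPGroup 2 (X.map φ) := by
    rintro ⟨z, hz⟩
    obtain ⟨w, hw, rfl⟩ := mem_map.1 hz
    obtain ⟨m, hm⟩ := hX w hw
    refine ⟨m, Subtype.ext ?_⟩
    show (φ w) ^ 2 ^ m = 1
    rw [← map_pow]
    exact (QuotientGroup.eq_one_iff _).2 hm
  have hAn : (X.map φ).Normal := hXn.map φ (QuotientGroup.mk'_surjective NK)
  have hB : IsPGroup 2 (zpowers (φ x')) := by
    rintro ⟨z, hz⟩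
    obtain ⟨k, rfl⟩ := mem_zpowers_iff.1 hz
    refine ⟨a, Subtype.ext ?_⟩
    show ((φ x') ^ k) ^ 2 ^ a = 1
    rw [← zpow_natCast, ← zpow_mul, mul_comm, zpow_mul, zpow_natCast, ← map_pow, ha, map_one, one_zpow]
  have hAB : IsPGroup 2 (X.map φ ⊔ zpowers (φ x') : Subgroup (K ⧸ NK)) :=
    IsPGroup.to_sup_of_normal_left hA hB
  apply hg
  intro z hz
  have e : (closure {x, x'}).map K.subtype =
      closure {r ^ (2 ^ (l - 1)), g * r ^ (2 ^ (l - 1)) * g⁻¹} := by
    rw [MonoidHom.map_closure, Set.image_pair]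
    rw [← hx'v, ← hxv]
    rfl
  rw [← e] at hz
  obtain ⟨w, hw, rfl⟩ := mem_map.1 hz
  have h1 : closure {x, x'} ≤ (X.map φ ⊔ zpowers (φ x') : Subgroup (K ⧸ NK)).comap φ := by
    rw [closure_le]
    rintro y (rfl | rfl)
    · exact mem_sup_left (mem_map_of_mem _ (subset_normalClosure rfl))
    · exact mem_sup_right (mem_zpowers _)
  obtain ⟨m, hm⟩ := hAB ⟨φ w, h1 hw⟩
  refine ⟨m, ?_⟩
  have h2 : (φ w) ^ 2 ^ m = 1 := congrArg Subtype.val hm
  rw [← map_pow] at h2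
  have h3 : w ^ (2 ^ m) ∈ NK := (QuotientGroup.eq_one_iff _).1 h2
  exact h3

private theorem b3_aux (c : ℕ) : ∀ (H : Type u) [Group H] [Finite H], Nat.card H = c →
    ∀ (Q T N : Subgroup H) [Q.Normal] [N.Normal],
    IsPGroup 2 T → Q ≤ T → ∀ n l : ℕ, 3 ≤ l → T.lowerCentralSeries n = ⊥ → ∀ r ∈ T,
      r ^ (2 ^ l) ∈ Q → (¬ ∀ g ∈ normalClosure {r ^ (2 ^ (l - 1))}, ∃ m : ℕ, g ^ (2 ^ m) ∈ N) →
      ∃ ρ ∈ normalClosure {r ^ (2 ^ (l - 1))}, Odd (orderOf ρ) ∧ ρ ∉ N ∧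
        ∀ w ∈ Q, Commute ρ (w ^ (2 ^ (n - l))) := by
  induction c using Nat.strong_induction_on with
  | _ c ih =>
    intro H _ _ hc Q T N hQ hN hT hQT n l hl hTn r hr hs hbad
    by_cases hex : ∃ K : Subgroup H, K ≠ ⊤ ∧ Q ≤ K ∧ ∃ hrK : r ∈ K,
      ¬ ∀ g ∈ normalClosure ({(⟨r, hrK⟩ : K) ^ (2 ^ (l - 1))} : Set K),
        ∃ m : ℕ, g ^ (2 ^ m) ∈ N.subgroupOf K
    · obtain ⟨K, hKt, hQK, hrK, hK⟩ := hex
      have hcard : Nat.card K < c := by
        rw [← hc]
        have h1 : Nat.card K ≤ Nat.card H := Nat.card_le_card_of_injective _ K.subtype_injective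
        rcases h1.lt_or_eq with h | h
        · exact h
        · exact absurd (Subgroup.eq_top_of_card_eq K h) hKt
      have hTK : IsPGroup 2 (T.subgroupOf K) := hT.comap_of_injective K.subtype K.subtype_injective
      have hTKn : (T.subgroupOf K).lowerCentralSeries n = ⊥ := by
        have h1 : ((T.subgroupOf K).lowerCentralSeries n).map K.subtype ≤ T.lowerCentralSeries n := by
          rw [map_lowerCentralSeries]
          apply b3_lcs_mono
          rw [map_le_iff_le_comap]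
          exact le_rfl
        rw [hTn] at h1
        exact (map_eq_bot_iff_of_injective _ K.subtype_injective).1 (le_bot_iff.1 h1)
      obtain ⟨ρ, hρ, ho, hρN, hρc⟩ := ih (Nat.card K) hcard K rfl (Q.subgroupOf K) (T.subgroupOf K)
        (N.subgroupOf K) hTK (fun z hz => hQT hz) n l hl hTKn ⟨r, hrK⟩ hr hs hK
      refine ⟨ρ, ?_, ?_, hρN, ?_⟩
      · have h1 : (normalClosure ({(⟨r, hrK⟩ : K) ^ (2 ^ (l - 1))} : Set K)).map K.subtype ≤
            normalClosure {r ^ (2 ^ (l - 1))} := by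
          rw [map_le_iff_le_comap]
          refine normalClosure_le_normal ?_
          rintro _ rfl
          exact subset_normalClosure rfl
        exact h1 (mem_map_of_mem _ hρ)
      · rwa [Subgroup.orderOf_coe]
      · intro w hw
        have h1 := hρc ⟨w, hQK hw⟩ hw
        exact congrArg Subtype.val h1.eq
    · push Not at hex
      have hgood : ∀ K : Subgroup H, K ≠ ⊤ → Q ≤ K → ∀ hrK : r ∈ K,
          ∀ g ∈ normalClosure ({(⟨r, hrK⟩ : K) ^ (2 ^ (l - 1))} : Set K),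
            ∃ m : ℕ, g ^ (2 ^ m) ∈ N.subgroupOf K := fun K h1 h2 h3 => hex K h1 h2 h3
      obtain ⟨g, hg⟩ := E1adE.baerSuzuki_mod N (r ^ (2 ^ (l - 1))) hbad
      have h1 := b3_top Q T N hT l r hr hgood g hg
      have hg' : ¬ ∀ z ∈ (closure {r ^ (2 ^ (l - 1)), g⁻¹ * r ^ (2 ^ (l - 1)) * g⁻¹⁻¹} : Subgroup H),
          ∃ m : ℕ, z ^ (2 ^ m) ∈ N := by
        intro hall
        apply hg
        intro z hz
        have e : (closure {r ^ (2 ^ (l - 1)), g⁻¹ * r ^ (2 ^ (l - 1)) * g⁻¹⁻¹}).map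
            (MulAut.conj g).toMonoidHom =
            closure {r ^ (2 ^ (l - 1)), g * r ^ (2 ^ (l - 1)) * g⁻¹} := by
          rw [MonoidHom.map_closure, Set.image_pair, Set.pair_comm]
          congr 2
          simp [mul_assoc]
        rw [← e] at hz
        obtain ⟨w, hw, rfl⟩ := mem_map.1 hz
        obtain ⟨m, hm⟩ := hall w hw
        refine ⟨m, ?_⟩
        show (g * w * g⁻¹) ^ (2 ^ m) ∈ N
        rw [conj_pow]
        exact hN.conj_mem _ hm g
      have h2' := b3_top Q T N hT l r hr hgood g⁻¹ hg'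
      have h2 : closure ((Q : Set H) ∪ {r ^ (2 ^ (l - 1)), g * r * g⁻¹}) = ⊤ := by
        rw [eq_top_iff]
        have e : (closure ((Q : Set H) ∪ {r, g⁻¹ * r ^ (2 ^ (l - 1)) * g⁻¹⁻¹})).map
            (MulAut.conj g).toMonoidHom ≤
            closure ((Q : Set H) ∪ {r ^ (2 ^ (l - 1)), g * r * g⁻¹}) := by
          rw [map_le_iff_le_comap, closure_le]
          rintro y (hy | rfl | rfl)
          · exact subset_closure (Or.inl (hQ.conj_mem y hy g))
          · exact subset_closure (Or.inr (Or.inr rfl))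
          · refine subset_closure (Or.inr (Or.inl ?_))
            show g * (g⁻¹ * r ^ (2 ^ (l - 1)) * g⁻¹⁻¹) * g⁻¹ = r ^ (2 ^ (l - 1))
            group
        rw [h2'] at e
        refine le_trans ?_ e
        rintro z -
        exact ⟨g⁻¹ * z * g, mem_top _, by simp [mul_assoc]⟩
      let D : Dat H :=
        { Q := Q, T := T, n := n, l := l, r := r, g := g, hQ := hQ, hT := hT, hQT := hQT,
          hTn := hTn, hr := hr, hl := hl, hs := hs, h1 := h1, h2 := h2 }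
      push Not at hbad
      obtain ⟨g0, hg0, hg0N⟩ := hbad
      obtain ⟨e, o, ho, heo⟩ := Nat.exists_eq_two_pow_mul_odd (n := orderOf g0) (orderOf_pos g0).ne'
      have h3 : orderOf (g0 ^ (2 ^ e)) = o := by
        rw [orderOf_pow_of_dvd (by positivity) (heo ▸ dvd_mul_right _ _), heo]
        exact Nat.mul_div_cancel_left _ (by positivity)
      refine ⟨g0 ^ (2 ^ e), pow_mem hg0 _, by rw [h3]; exact ho, hg0N e, fun w hw => ?_⟩
      exact main_local D (e := n - l) (by show n ≤ l + (n - l); omega) (pow_mem hg0 _)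
        (by rw [h3]; exact ho) hw

/-- the local theorem -/
theorem LL : E1adE.LL.{u} := by
  intro H _ _ Q T N _ _ hT hQT n l hl hTn r hr hs hbad
  exact b3_aux (Nat.card H) H rfl Q T N hT hQT n l hl hTn r hr hs hbad

end E1adH39
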