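import Pool.Agent.Lib.MP_1ad17e_al_h39.Defs

/-! Row C1: `F m = ⊥` for large `m`. -/

set_option autoImplicit false

namespace E1adH39

open Subgroup
open scoped commutatorElement

variable {G : Type*} [Group G]

/-- elements of `E` are squares of elements of `E` modulo `⁅E, Q⁆` -/
private theorem sq_mod {E Q : Subgroup G} [E.Normal] [Q.Normal] (hEQ : E ≤ Q)
    (hE : E ≤ ⁅E, Q⁆ ⊔ closure {z | ∃ u ∈ E, z = u * u}) (k : ℕ) :
    ∀ e ∈ E, ∃ u ∈ E, QuotientGroup.mk' ⁅E, Q⁆ e = QuotientGroup.mk' ⁅E, Q⁆ u ^ (2 ^ k) := by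
  set π := QuotientGroup.mk' ⁅E, Q⁆ with hπ
  have hcomm : ∀ u ∈ E, ∀ v ∈ E, π u * π v = π v * π u := by
    intro u hu v hv
    have h : ⁅u, v⁆ ∈ ⁅E, Q⁆ := commutator_mem_commutator hu (hEQ hv)
    have h' : π ⁅u, v⁆ = 1 := (QuotientGroup.eq_one_iff _).2 h
    rw [map_commutatorElement, commutatorElement_eq_one_iff_mul_comm] at h'
    exact h'
  let R : Subgroup G :=
    { carrier := {x | ∃ u ∈ E, π x = π u * π u}
      one_mem' := ⟨1, one_mem _, by simp⟩
      mul_mem' := by
        rintro x y ⟨u, hu, hx⟩ ⟨v, hv, hy⟩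
        refine ⟨u * v, mul_mem hu hv, ?_⟩
        rw [map_mul, hx, hy, map_mul]
        calc π u * π u * (π v * π v) = π u * (π u * π v) * π v := by group
          _ = π u * (π v * π u) * π v := by rw [hcomm u hu v hv]
          _ = π u * π v * (π u * π v) := by group
      inv_mem' := by
        rintro x ⟨u, hu, hx⟩
        refine ⟨u⁻¹, inv_mem hu, ?_⟩
        rw [map_inv, hx, map_inv, mul_inv_rev] }
  have hR : E ≤ R := by
    refine hE.trans (sup_le ?_ ((closure_le _).2 ?_))
    · intro x hx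
      have h : π x = 1 := (QuotientGroup.eq_one_iff x).2 hx
      exact ⟨1, one_mem _, by rw [h]; simp⟩
    · rintro _ ⟨u, hu, rfl⟩
      exact ⟨u, hu, map_mul _ _ _⟩
  induction k with
  | zero => exact fun e he => ⟨e, he, by simp⟩
  | succ k ih =>
    intro e he
    obtain ⟨u, hu, hue⟩ := ih e he
    obtain ⟨w, hw, hwu⟩ := hR hu
    refine ⟨w, hw, ?_⟩
    rw [hue, hwu, ← pow_two, ← pow_mul, ← pow_succ']

/-- RECIPE. `F` is antitone and `G` is finite, so there is `m0` with `F m = F m0 =: E` for `m ≥ m0`. Let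
`Z := ⁅E, Q⁆ ⊔ closure {u * u | u ∈ E}`. Claim: `Wt u a`, `a ≥ 2 * m0 + 2 * M + 3` imply `u ∈ Z`
(induction on the derivation: letters have small weight; commutators: one of the two weights is
`≥ m0`, so one of the two elements is in `E` and the other one in `Q`, and `Z` is closed under
inverses; squares: `a ≥ m0`). So `E = F (2 m0 + 2 M + 3) ≤ Z`. But in the finite 2-group `Q` this forces
`E = ⊥`: `E / ⁅E, Q⁆` is abelian and equal to its squares, so it is trivial (2-group), `E = ⁅E, Q⁆`, so `E`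
lies in all terms of the lower central series of the nilpotent group `Q`. -/
theorem F_bot [Finite G] (D : Dat G) : ∃ m, D.F m = ⊥ := by
  classical
  have hQ := D.hQ
  -- the series stabilises
  obtain ⟨m0, hm0⟩ : ∃ m0, ∀ m, m0 ≤ m → D.F m = D.F m0 := by
    have hex : ∃ c, ∃ m, Nat.card (D.F m) = c := ⟨_, 0, rfl⟩
    obtain ⟨m0, hm0⟩ := Nat.find_spec hex
    refine ⟨m0, fun m hm => ?_⟩
    refine eq_of_le_of_card_ge (D.F_anti hm) ?_
    rw [hm0]
    exact Nat.find_min' hex ⟨m, rfl⟩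
  set E := D.F m0 with hEdef
  have hEn : E.Normal := D.F_normal m0
  have hEQ : E ≤ D.Q := D.F_le m0
  have key : ∀ (u : G) (a : ℕ), Wt D.Q D.S0 D.S1 D.M u a → 2 * m0 + 2 * D.M + 3 ≤ a →
      u ∈ ⁅E, D.Q⁆ ⊔ closure {z | ∃ u ∈ E, z = u * u} := by
    intro u a hu
    induction hu with
    | q _ => intro h; omega
    | s0 _ => intro h; omega
    | s1 _ => intro h; omega
    | one => intro _; exact one_mem _
    | @comm u v a b hu hv _ _ =>
      intro h
      refine le_sup_left (a := ⁅E, D.Q⁆) ?_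
      have huQ : u ∈ D.Q := D.F_le a hu
      have hvQ : v ∈ D.Q := D.F_le b hv
      rcases le_or_gt m0 a with ha | ha
      · exact commutator_mem_commutator (D.F_anti ha hu) hvQ
      · rw [commutator_comm]
        exact commutator_mem_commutator huQ (D.F_anti (show m0 ≤ b by omega) hv)
    | @sq u a hu _ =>
      intro h
      refine le_sup_right (a := ⁅E, D.Q⁆) ?_
      exact subset_closure ⟨u, D.F_anti (show m0 ≤ a by omega) hu, rfl⟩
    | mul _ _ h1 h2 => intro h; exact mul_mem (h1 h) (h2 h)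
    | inv _ h1 => intro h; exact inv_mem (h1 h)
    | mono _ hle h1 => intro h; exact h1 (h.trans hle)
  have hEZ : E ≤ ⁅E, D.Q⁆ ⊔ closure {z | ∃ u ∈ E, z = u * u} := by
    intro u hu
    rw [← hm0 (2 * m0 + 2 * D.M + 3) (by omega)] at hu
    exact key u _ hu le_rfl
  -- `E ≤ ⁅E, Q⁆`
  have hEC : E ≤ ⁅E, D.Q⁆ := by
    obtain ⟨k, hk⟩ := (IsPGroup.iff_card (p := 2) (G := D.T)).1 D.hT
    intro e he
    obtain ⟨u, hu, hue⟩ := sq_mod hEQ hEZ k e he
    have hu1 : u ^ (2 ^ k) = 1 := by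
      have h := pow_card_eq_one' (G := D.T) (x := ⟨u, D.hQT (hEQ hu)⟩)
      rw [hk] at h
      exact congrArg Subtype.val h
    rw [← map_pow, hu1, map_one] at hue
    exact (QuotientGroup.eq_one_iff e).1 hue
  -- `E` is in all terms of the lower central series of `T`
  have hlcs : ∀ k, E ≤ D.T.lowerCentralSeries k := by
    intro k
    induction k with
    | zero => exact hEQ.trans D.hQT
    | succ k ih => exact hEC.trans (commutator_mono ih D.hQT)
  refine ⟨m0, le_bot_iff.1 ?_⟩
  rw [← D.hTn]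
  exact hlcs D.n

end E1adH39
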