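import Pool.Agent.Lib.MP_1ad17e_al_h39.Defs

/-! Row C2: calculus modulo `F c`. -/

set_option autoImplicit false

namespace E1adH39

open Subgroup
open scoped commutatorElement

variable {G : Type*} [Group G]

namespace Dat

variable (D : Dat G)

/-- congruence modulo `F c` -/
def Cg (c : ℕ) (u v : G) : Prop := u * v⁻¹ ∈ D.F c

variable {D}

theorem Cg.refl (c : ℕ) (u : G) : D.Cg c u u := by
  unfold Cg
  rw [mul_inv_cancel]
  exact one_mem _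

theorem Cg.symm {c : ℕ} {u v : G} (h : D.Cg c u v) : D.Cg c v u := by
  unfold Cg at h ⊢
  have := inv_mem h
  rwa [mul_inv_rev, inv_inv] at this

theorem Cg.trans {c : ℕ} {u v w : G} (h : D.Cg c u v) (h' : D.Cg c v w) : D.Cg c u w := by
  unfold Cg at h h' ⊢
  have := mul_mem h h'
  rwa [mul_assoc, inv_mul_cancel_left] at this

theorem Cg.mono {c d : ℕ} {u v : G} (h : D.Cg c u v) (hd : d ≤ c) : D.Cg d u v := D.F_anti hd h

theorem Cg.mul {c : ℕ} {u v u' v' : G} (h : D.Cg c u v) (h' : D.Cg c u' v') :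
    D.Cg c (u * u') (v * v') := by
  unfold Cg at h h' ⊢
  have e : u * u' * (v * v')⁻¹ = (u * v⁻¹) * (v * (u' * v'⁻¹) * v⁻¹) := by group
  rw [e]
  exact mul_mem h (D.conj_mem_F h' v)

theorem Cg.inv {c : ℕ} {u v : G} (h : D.Cg c u v) : D.Cg c u⁻¹ v⁻¹ := by
  have h1 := Cg.symm h
  unfold Cg at h1 ⊢
  have e : u⁻¹ * v⁻¹⁻¹ = v⁻¹ * (v * u⁻¹) * v⁻¹⁻¹ := by group
  rw [e]
  exact D.conj_mem_F h1 v⁻¹

theorem Cg.pow {c : ℕ} {u v : G} (h : D.Cg c u v) (k : ℕ) : D.Cg c (u ^ k) (v ^ k) := by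
  induction k with
  | zero => simpa using Cg.refl c 1
  | succ k ih =>
    rw [pow_succ, pow_succ]
    exact ih.mul h

theorem Cg.conj {c : ℕ} {u v : G} (h : D.Cg c u v) (g : G) : D.Cg c (g * u * g⁻¹) (g * v * g⁻¹) := by
  unfold Cg at h ⊢
  have e : g * u * g⁻¹ * (g * v * g⁻¹)⁻¹ = g * (u * v⁻¹) * g⁻¹ := by group
  rw [e]
  exact D.conj_mem_F h g

theorem Cg.mem {c a : ℕ} {u v : G} (h : D.Cg c u v) (hv : v ∈ D.F a) (hac : a ≤ c) : u ∈ D.F a := by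
  have e : u = (u * v⁻¹) * v := by group
  rw [e]
  exact mul_mem (D.F_anti hac h) hv

theorem cg_one {c : ℕ} {u : G} : D.Cg c u 1 ↔ u ∈ D.F c := by
  unfold Cg
  rw [inv_one, mul_one]

/-- `u v ≡ v u` -/
theorem cg_swap {a b : ℕ} {u v : G} (hu : u ∈ D.F a) (hv : v ∈ D.F b) :
    D.Cg (a + b) (u * v) (v * u) := by
  have h := D.F_comm hu hv
  unfold Cg
  have e : u * v * (v * u)⁻¹ = ⁅u, v⁆ := by
    rw [commutatorElement_def]
    group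
  rw [e]
  exact h

private theorem cg_conj_self {a c : ℕ} {g X : G} (hg : g ∈ D.F a) (hX : X ∈ D.F c) :
    D.Cg (a + c) (g * X * g⁻¹) X := by
  have h := D.F_comm hg hX
  unfold Cg
  rw [commutatorElement_def] at h
  exact h

/-- bilinearity -/
theorem cg_comm_mul_left {a b : ℕ} (ha : 1 ≤ a) {u u' v : G} (hu : u ∈ D.F a) (hu' : u' ∈ D.F a)
    (hv : v ∈ D.F b) : D.Cg (a + b + 1) ⁅u * u', v⁆ (⁅u, v⁆ * ⁅u', v⁆) := by
  have e : ⁅u * u', v⁆ = (u * ⁅u', v⁆ * u⁻¹) * ⁅u, v⁆ := by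
    simp only [commutatorElement_def]
    group
  have h1 := D.F_comm hu hv
  have h2 := D.F_comm hu' hv
  rw [e]
  have h3 : D.Cg (a + b + 1) (u * ⁅u', v⁆ * u⁻¹) ⁅u', v⁆ := (cg_conj_self hu h2).mono (by omega)
  have h4 : D.Cg (a + b + 1) (⁅u', v⁆ * ⁅u, v⁆) (⁅u, v⁆ * ⁅u', v⁆) := (cg_swap h2 h1).mono (by omega)
  exact (h3.mul (Cg.refl _ _)).trans h4

theorem cg_comm_mul_right {a b : ℕ} (hb : 1 ≤ b) {u v v' : G} (hu : u ∈ D.F a) (hv : v ∈ D.F b)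
    (hv' : v' ∈ D.F b) : D.Cg (a + b + 1) ⁅u, v * v'⁆ (⁅u, v⁆ * ⁅u, v'⁆) := by
  have e : ⁅u, v * v'⁆ = ⁅u, v⁆ * (v * ⁅u, v'⁆ * v⁻¹) := by
    simp only [commutatorElement_def]
    group
  have h2 := D.F_comm hu hv'
  rw [e]
  exact (Cg.refl _ _).mul ((cg_conj_self hv h2).mono (by omega))

theorem cg_comm_inv_left {a b : ℕ} (ha : 1 ≤ a) {u v : G} (hu : u ∈ D.F a) (hv : v ∈ D.F b) :
    D.Cg (a + b + 1) ⁅u⁻¹, v⁆ ⁅u, v⁆⁻¹ := by
  have e : ⁅u⁻¹, v⁆ = u⁻¹ * ⁅u, v⁆⁻¹ * u⁻¹⁻¹ := by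
    simp only [commutatorElement_def]
    group
  rw [e]
  exact (cg_conj_self (inv_mem hu) (inv_mem (D.F_comm hu hv))).mono (by omega)

theorem cg_comm_inv_right {a b : ℕ} (hb : 1 ≤ b) {u v : G} (hu : u ∈ D.F a) (hv : v ∈ D.F b) :
    D.Cg (a + b + 1) ⁅u, v⁻¹⁆ ⁅u, v⁆⁻¹ := by
  have e : ⁅u, v⁻¹⁆ = v⁻¹ * ⁅u, v⁆⁻¹ * v⁻¹⁻¹ := by
    simp only [commutatorElement_def]
    group
  rw [e]
  exact (cg_conj_self (inv_mem hv) (inv_mem (D.F_comm hu hv))).mono (by omega)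

private theorem cg_comm_congr_left {a b : ℕ} {u u' v : G} (hu : u ∈ D.F a) (hv : v ∈ D.F b)
    (h : D.Cg (a + 1) u u') : D.Cg (a + b + 1) ⁅u, v⁆ ⁅u', v⁆ := by
  have hu' : u' ∈ D.F a := h.symm.mem hu (by omega)
  have hc : u * u'⁻¹ ∈ D.F (a + 1) := h
  have e : ⁅u, v⁆ = ((u * u'⁻¹) * ⁅u', v⁆ * (u * u'⁻¹)⁻¹) * ⁅u * u'⁻¹, v⁆ := by
    simp only [commutatorElement_def]
    group
  rw [e]
  have h1 : D.Cg (a + b + 1) ((u * u'⁻¹) * ⁅u', v⁆ * (u * u'⁻¹)⁻¹) ⁅u', v⁆ :=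
    (cg_conj_self hc (D.F_comm hu' hv)).mono (by omega)
  have h2 : D.Cg (a + b + 1) ⁅u * u'⁻¹, v⁆ 1 := cg_one.2 (D.F_anti (by omega) (D.F_comm hc hv))
  have h3 := h1.mul h2
  rwa [mul_one] at h3

private theorem cg_comm_congr_right {a b : ℕ} {u v v' : G} (hu : u ∈ D.F a) (hv : v ∈ D.F b)
    (h : D.Cg (b + 1) v v') : D.Cg (a + b + 1) ⁅u, v⁆ ⁅u, v'⁆ := by
  have h1 := (cg_comm_congr_left hv hu h).inv
  rw [commutatorElement_inv, commutatorElement_inv] at h1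
  exact h1.mono (by omega)

/-- commutators only depend on the classes: `u ≡ u'` modulo `F (a + 1)` and `v ≡ v'` modulo
`F (b + 1)`. No condition on `u, v` besides `u ∈ F a`, `v ∈ F b`. -/
theorem cg_comm_congr {a b : ℕ} {u u' v v' : G} (hu : u ∈ D.F a) (hv : v ∈ D.F b)
    (h : D.Cg (a + 1) u u') (h' : D.Cg (b + 1) v v') : D.Cg (a + b + 1) ⁅u, v⁆ ⁅u', v'⁆ :=
  (cg_comm_congr_left hu hv h).trans
    (cg_comm_congr_right (h.symm.mem hu (by omega)) hv h')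

private theorem cg_sq_congr {a : ℕ} (ha : D.M + 1 ≤ a) {u v : G} (hu : u ∈ D.F a)
    (h : D.Cg (a + 1) u v) : D.Cg (a + D.M + 1) (u * u) (v * v) := by
  have hv : v ∈ D.F a := h.symm.mem hu (by omega)
  have hc : u * v⁻¹ ∈ D.F (a + 1) := h
  have e : u * u = (u * v⁻¹) * (v * (u * v⁻¹)) * v := by group
  have e2 : v * v = 1 * (v * v) := by group
  rw [e, e2]
  have h1 : D.Cg (a + D.M + 1) (v * (u * v⁻¹)) ((u * v⁻¹) * v) := (cg_swap hv hc).mono (by omega)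
  have h2 : D.Cg (a + D.M + 1) ((u * v⁻¹) * (u * v⁻¹)) 1 :=
    cg_one.2 (D.F_anti (by omega) (D.F_sq hc))
  have h3 := ((Cg.refl (a + D.M + 1) (u * v⁻¹)).mul h1).mul (Cg.refl _ v)
  have h4 := h2.mul (Cg.refl (a + D.M + 1) (v * v))
  refine h3.trans ?_
  have e3 : u * v⁻¹ * (u * v⁻¹ * v) * v = u * v⁻¹ * (u * v⁻¹) * (v * v) := by group
  rw [e3]
  exact h4

private theorem pow_two_succ (u : G) (j : ℕ) : u ^ (2 ^ (j + 1)) = u ^ (2 ^ j) * u ^ (2 ^ j) := by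
  rw [← pow_add]
  congr 1
  ring

theorem cg_pow_congr {a : ℕ} (ha : D.M + 1 ≤ a) {u v : G} (hu : u ∈ D.F a)
    (h : D.Cg (a + 1) u v) (j : ℕ) : D.Cg (a + D.M * j + 1) (u ^ (2 ^ j)) (v ^ (2 ^ j)) := by
  induction j with
  | zero => simpa using h
  | succ j ih =>
    rw [pow_two_succ, pow_two_succ]
    have h1 := cg_sq_congr (a := a + D.M * j) (by omega) (D.F_pow hu j) ih
    exact h1.mono (by rw [Nat.mul_succ]; omega)

/-- `(u v)^(2^j) ≡ u^(2^j) v^(2^j)` -/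
theorem cg_mul_pow {a : ℕ} (ha : D.M + 1 ≤ a) {u v : G} (hu : u ∈ D.F a) (hv : v ∈ D.F a) (j : ℕ) :
    D.Cg (a + D.M * j + 1) ((u * v) ^ (2 ^ j)) (u ^ (2 ^ j) * v ^ (2 ^ j)) := by
  induction j with
  | zero => simpa using Cg.refl (a + 1) (u * v)
  | succ j ih =>
    rw [pow_two_succ (u * v), pow_two_succ u, pow_two_succ v]
    have h1 := cg_sq_congr (a := a + D.M * j) (by omega) (D.F_pow (mul_mem hu hv) j) ih
    have hX := D.F_pow hu j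
    have hY := D.F_pow hv j
    set X := u ^ (2 ^ j)
    set Y := v ^ (2 ^ j)
    have h2 : D.Cg (a + D.M * (j + 1) + 1) (Y * X) (X * Y) :=
      (cg_swap hY hX).mono (by rw [Nat.mul_succ]; omega)
    have h3 := ((Cg.refl (a + D.M * (j + 1) + 1) X).mul h2).mul (Cg.refl _ Y)
    have e1 : X * (Y * X) * Y = X * Y * (X * Y) := by group
    have e2 : X * (X * Y) * Y = X * X * (Y * Y) := by group
    rw [e1, e2] at h3
    exact (h1.mono (by rw [Nat.mul_succ]; omega)).trans h3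

private theorem cg_comm_pow_left {a b : ℕ} (ha : D.M + 1 ≤ a) (hb : D.M + 1 ≤ b) {u v : G}
    (hu : u ∈ D.F a) (hv : v ∈ D.F b) (i : ℕ) :
    D.Cg (a + b + D.M * i + 1) ⁅u ^ (2 ^ i), v⁆ (⁅u, v⁆ ^ (2 ^ i)) := by
  induction i with
  | zero => simpa using Cg.refl (a + b + 1) ⁅u, v⁆
  | succ i ih =>
    rw [pow_two_succ u, pow_two_succ ⁅u, v⁆]
    have hX := D.F_pow hu i
    set X := u ^ (2 ^ i)
    have hc := D.F_comm hX hv
    have e : ⁅X * X, v⁆ = (X * ⁅X, v⁆ * X⁻¹) * ⁅X, v⁆ := by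
      simp only [commutatorElement_def]
      group
    have h1 : D.Cg (a + b + D.M * (i + 1) + 1) (X * ⁅X, v⁆ * X⁻¹) ⁅X, v⁆ :=
      (cg_conj_self hX hc).mono (by rw [Nat.mul_succ]; omega)
    have h2 := h1.mul (Cg.refl _ ⁅X, v⁆)
    rw [← e] at h2
    refine h2.trans ?_
    have h3 := cg_sq_congr (a := a + b + D.M * i) (by omega)
      (D.F_anti (by omega) hc : ⁅X, v⁆ ∈ D.F (a + b + D.M * i)) ih
    exact h3.mono (by rw [Nat.mul_succ]; omega)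

private theorem cg_comm_pow_right {a b : ℕ} (ha : D.M + 1 ≤ a) (hb : D.M + 1 ≤ b) {u v : G}
    (hu : u ∈ D.F a) (hv : v ∈ D.F b) (i : ℕ) :
    D.Cg (a + b + D.M * i + 1) ⁅u, v ^ (2 ^ i)⁆ (⁅u, v⁆ ^ (2 ^ i)) := by
  have h1 := (cg_comm_pow_left hb ha hv hu i).inv
  rw [commutatorElement_inv, ← inv_pow, commutatorElement_inv] at h1
  exact h1.mono (by omega)

/-- (2.4) -/
theorem cg_comm_pow {a b : ℕ} (ha : D.M + 1 ≤ a) (hb : D.M + 1 ≤ b) {u v : G} (hu : u ∈ D.F a)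
    (hv : v ∈ D.F b) (i j : ℕ) :
    D.Cg (a + b + D.M * (i + j) + 1) ⁅u ^ (2 ^ i), v ^ (2 ^ j)⁆ (⁅u, v⁆ ^ (2 ^ (i + j))) := by
  have h1 := cg_comm_pow_right (a := a + D.M * i) (by omega) hb (D.F_pow hu i) hv j
  have hc : ⁅u ^ (2 ^ i), v⁆ ∈ D.F (a + b + D.M * i) :=
    D.F_anti (by omega) (D.F_comm (D.F_pow hu i) hv)
  have h2 := cg_pow_congr (a := a + b + D.M * i) (by omega) hc (cg_comm_pow_left ha hb hu hv i) j
  have e : (⁅u, v⁆ ^ (2 ^ i)) ^ (2 ^ j) = ⁅u, v⁆ ^ (2 ^ (i + j)) := by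
    rw [← pow_mul, ← pow_add]
  rw [e] at h2
  refine (h1.mono ?_).trans (h2.mono ?_)
  · rw [Nat.mul_add]; omega
  · rw [Nat.mul_add]; omega

end Dat

end E1adH39
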