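import Pool.Agent.Lib.MP_1ad17e_al_h39.RowB1

/-! Row D1, (3.1). -/

set_option autoImplicit false

namespace E1adH39

open Subgroup
open scoped commutatorElement

variable {G : Type*} [Group G]

/-- RECIPE. `Γ := {h | h * s * h⁻¹ * s⁻¹ ∈ F (2M+2)}` is a subgroup (`F (2M+2)` normal); it contains `r`
(commutes with `s`), `Q` (`F_comm`), `L0` (`⁅o, s⁆ ∈ S1`). Suppose `Γ ≠ ⊤`. `W := Q ⊔ L0` is normal and
`G / W` is a 2-group by `pow_mem_sup`, hence nilpotent; the image of `Γ` is a proper subgroup, so it is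
contained in a coatom, which is normal; so there is a normal `H ≠ ⊤` with `Γ ≤ H`; `x ∈ H`, so
`g x g⁻¹ ∈ H`, so `H = ⊤` by `D.h1`. -/
theorem conj_s [Finite G] (D : Dat G) (h : G) : h * D.s * h⁻¹ * D.s⁻¹ ∈ D.F (2 * D.M + 2) := by
  have hQn := D.hQ
  have hL0n := D.L0_normal
  have hFn := D.F_normal (2 * D.M + 2)
  let Γ : Subgroup G :=
    { carrier := {h | h * D.s * h⁻¹ * D.s⁻¹ ∈ D.F (2 * D.M + 2)}
      mul_mem' := by
        intro a b ha hb
        show a * b * D.s * (a * b)⁻¹ * D.s⁻¹ ∈ D.F (2 * D.M + 2)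
        have e : a * b * D.s * (a * b)⁻¹ * D.s⁻¹ =
            (a * (b * D.s * b⁻¹ * D.s⁻¹) * a⁻¹) * (a * D.s * a⁻¹ * D.s⁻¹) := by group
        rw [e]
        exact mul_mem (hFn.conj_mem _ hb a) ha
      one_mem' := by
        show 1 * D.s * 1⁻¹ * D.s⁻¹ ∈ D.F (2 * D.M + 2)
        have e : 1 * D.s * 1⁻¹ * D.s⁻¹ = 1 := by group
        rw [e]
        exact one_mem _
      inv_mem' := by
        intro a ha
        show a⁻¹ * D.s * a⁻¹⁻¹ * D.s⁻¹ ∈ D.F (2 * D.M + 2)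
        have e : a⁻¹ * D.s * a⁻¹⁻¹ * D.s⁻¹ =
            a⁻¹ * (a * D.s * a⁻¹ * D.s⁻¹)⁻¹ * a⁻¹⁻¹ := by group
        rw [e]
        exact hFn.conj_mem _ (inv_mem ha) a⁻¹ }
  have hΓ : ∀ z : G, z ∈ Γ ↔ z * D.s * z⁻¹ * D.s⁻¹ ∈ D.F (2 * D.M + 2) := fun z => Iff.rfl
  have hrs : D.r * D.s = D.s * D.r := by
    unfold Dat.s
    rw [← pow_succ, ← pow_succ']
  have hrΓ : D.r ∈ Γ := by
    rw [hΓ, hrs]
    have e : D.s * D.r * D.r⁻¹ * D.s⁻¹ = 1 := by group
    rw [e]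
    exact one_mem _
  have hQΓ : D.Q ≤ Γ := by
    intro q hq
    rw [hΓ]
    have h1 : ⁅q, D.s⁆ ∈ D.F ((D.M + 1) + (2 * D.M + 1)) :=
      D.F_comm (D.Q_le_F le_rfl hq) (D.s_mem_F le_rfl)
    exact D.F_anti (by omega) h1
  have hLΓ : D.L0 ≤ Γ := by
    intro o ho
    rw [hΓ]
    have h1 : ⁅D.s, o⁆ ∈ D.S1 := commutator_mem_commutator D.s_mem_S0 ho
    have h2 : o * D.s * o⁻¹ * D.s⁻¹ = ⁅D.s, o⁆⁻¹ := by
      simp only [commutatorElement_def]
      group
    rw [h2]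
    exact inv_mem (D.S1_le_F le_rfl h1)
  have htop : Γ = ⊤ := by
    by_contra hne
    have hWn : (D.Q ⊔ D.L0).Normal := inferInstance
    have hWΓ : D.Q ⊔ D.L0 ≤ Γ := sup_le hQΓ hLΓ
    let π := QuotientGroup.mk' (D.Q ⊔ D.L0)
    have hπs : Function.Surjective π := QuotientGroup.mk'_surjective _
    have hk : π.ker = D.Q ⊔ D.L0 := QuotientGroup.ker_mk' _
    have hp : IsPGroup 2 (G ⧸ (D.Q ⊔ D.L0)) := by
      intro z
      obtain ⟨y, rfl⟩ := hπs z
      obtain ⟨k, hy⟩ := pow_mem_sup D y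
      refine ⟨k, ?_⟩
      rw [← map_pow]
      have : y ^ (2 ^ k) ∈ π.ker := by
        rw [hk]
        exact hy
      exact this
    have : Fact (Nat.Prime 2) := ⟨Nat.prime_two⟩
    have hnil : Group.IsNilpotent (G ⧸ (D.Q ⊔ D.L0)) := hp.isNilpotent
    have hcm : (Γ.map π).comap π = Γ := by
      rw [comap_map_eq, hk]
      exact sup_eq_left.2 hWΓ
    have hmne : Γ.map π ≠ ⊤ := by
      intro h1
      rw [h1, comap_top] at hcm
      exact hne hcm.symm
    obtain ⟨C, hC, hΓC⟩ := (eq_top_or_exists_le_coatom (Γ.map π)).resolve_left hmne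
    have hCn : C.Normal :=
      NormalizerCondition.normal_of_coatom C Group.normalizerCondition_of_isNilpotent hC
    have hHn : (C.comap π).Normal := inferInstance
    have hΓH : Γ ≤ C.comap π := map_le_iff_le_comap.1 hΓC
    have hxH : D.x ∈ C.comap π := pow_mem (hΓH hrΓ) _
    have hle : closure ((D.Q : Set G) ∪ {D.r, D.g * D.r ^ (2 ^ (D.l - 1)) * D.g⁻¹}) ≤
        C.comap π := by
      refine (closure_le _).2 ?_
      rintro z (hz | hz | hz)
      · exact hΓH (hQΓ hz)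
      · rw [hz]
        exact hΓH hrΓ
      · rw [hz]
        exact hHn.conj_mem _ hxH D.g
    rw [D.h1] at hle
    refine hC.1 ?_
    rw [eq_top_iff]
    intro z _
    obtain ⟨y, rfl⟩ := hπs z
    exact hle (mem_top y)
  have hmem : h ∈ Γ := by
    rw [htop]
    exact mem_top h
  exact hmem

end E1adH39
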