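import Pool.Agent.Lib.MP_1ad17e_al_h39.RowB1

/-! Row D2, (3.2), (3.3). -/

set_option autoImplicit false

namespace E1adH39

open Subgroup
open scoped commutatorElement

variable {G : Type*} [Group G]

private theorem d2_mk_comm {A B : Subgroup G} [B.Normal] (hAB : ⁅A, A⁆ ≤ B) {u v : G} (hu : u ∈ A)
    (hv : v ∈ A) : (u : G ⧸ B) * v = v * u := by
  have h1 : ⁅u, v⁆ ∈ B := hAB (commutator_mem_commutator hu hv)
  have h2 : ((⁅u, v⁆ : G) : G ⧸ B) = 1 := (QuotientGroup.eq_one_iff _).2 h1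
  rw [commutatorElement_def] at h2
  simp only [QuotientGroup.mk_mul, QuotientGroup.mk_inv] at h2
  rw [mul_inv_eq_one, mul_inv_eq_iff_eq_mul] at h2
  exact h2

private theorem d2_aux {A B T' : Subgroup G} [A.Normal] [B.Normal] (hAB : ⁅A, A⁆ ≤ B)
    (hsq : ∀ u ∈ A, u * u ∈ B) {z : G} (hz : z ∈ T') (k : ℕ) :
    ∀ e : ℕ, ∀ w ∈ A, w ∈ T'.lowerCentralSeries e → ∃ b ∈ A, b ∈ T'.lowerCentralSeries (e + 2 ^ k) ∧
      ((⁅w, z ^ (2 ^ k)⁆ : G) : G ⧸ B) = b := by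
  induction k with
  | zero =>
    intro e w hw hwe
    refine ⟨⁅w, z⁆, ?_, ?_, ?_⟩
    · exact commutator_le_left A ⊤ (commutator_mem_commutator hw (mem_top z))
    · rw [pow_zero]
      exact commutator_mem_commutator hwe hz
    · rw [pow_zero, pow_one]
  | succ k ih =>
    intro e w hw hwe
    obtain ⟨u, hu⟩ : ∃ u, u = z ^ (2 ^ k) := ⟨_, rfl⟩
    obtain ⟨b1, hb1, hb1e, h1⟩ := ih e w hw hwe
    obtain ⟨b2, hb2, hb2e, h2⟩ := ih (e + 2 ^ k) b1 hb1 hb1e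
    rw [← hu] at h1 h2
    refine ⟨b2⁻¹, inv_mem hb2, ?_, ?_⟩
    · have e2 : e + 2 ^ (k + 1) = e + 2 ^ k + 2 ^ k := by ring
      rw [e2]
      exact inv_mem hb2e
    · have e3 : z ^ (2 ^ (k + 1)) = u * u := by
        rw [hu, ← pow_add]
        congr 1
        ring
      have e4 : ⁅w, u * u⁆ = ⁅w, u⁆ * (u * ⁅w, u⁆ * u⁻¹) := by
        simp only [commutatorElement_def]
        group
      have hb1sq : ((b1 : G) : G ⧸ B) * b1 = 1 := by
        have := (QuotientGroup.eq_one_iff (N := B) (b1 * b1)).2 (hsq b1 hb1)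
        simpa using this
      rw [e3, e4]
      simp only [QuotientGroup.mk_mul, QuotientGroup.mk_inv, h1, ← h2]
      rw [commutatorElement_def]
      simp only [QuotientGroup.mk_mul, QuotientGroup.mk_inv, mul_inv_rev, inv_inv]
      -- b1 * (u * b1 * u⁻¹) = u * b1 * u⁻¹ * b1⁻¹
      have h5 : ((b1 : G) : G ⧸ B)⁻¹ = b1 := inv_eq_of_mul_eq_one_left hb1sq
      have h6 : ((b1 : G) : G ⧸ B) * ((u * b1 * u⁻¹ : G) : G ⧸ B) =
          ((u * b1 * u⁻¹ : G) : G ⧸ B) * (b1 : G ⧸ B) :=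
        d2_mk_comm hAB hb1 ((inferInstance : A.Normal).conj_mem b1 hb1 u)
      simp only [QuotientGroup.mk_mul, QuotientGroup.mk_inv] at h6
      rw [h6, h5]
      simp only [mul_assoc]

/-- General form of (3.2). -/
theorem split_gen [Finite G] (A B Q L0 T T' : Subgroup G) [A.Normal] [B.Normal] [L0.Normal]
    (hA : A = ⁅A, L0⁆) (hAB : ⁅A, A⁆ ≤ B) (hsq : ∀ u ∈ A, u * u ∈ B) (hQ : ⁅A, Q⁆ ≤ B)
    (hAT : A ≤ T) (hAT' : A ≤ T') (y z : G) (hy : y ∈ T) (hz : z ∈ T') (k : ℕ)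
    (hgen : closure ((Q : Set G) ∪ {y, z ^ (2 ^ k)}) = ⊤) :
    ∀ u ∈ A, ∃ a ∈ A, a ∈ T.lowerCentralSeries 1 ∧ ∃ b ∈ A, b ∈ T'.lowerCentralSeries (2 ^ k) ∧
      u * (a * b)⁻¹ ∈ B := by
  -- the subgroup `W`
  let W : Subgroup G :=
    { carrier := {u | u ∈ A ∧ ∃ a ∈ A, a ∈ T.lowerCentralSeries 1 ∧ ∃ b ∈ A,
        b ∈ T'.lowerCentralSeries (2 ^ k) ∧ (u : G ⧸ B) = (a : G ⧸ B) * (b : G ⧸ B)}
      one_mem' := ⟨one_mem _, 1, one_mem _, one_mem _, 1, one_mem _, one_mem _, by simp⟩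
      mul_mem' := by
        rintro u u' ⟨hu, a, ha, ha', b, hb, hb', h⟩ ⟨hu1, a1, ha1, ha1', b1, hb1, hb1', h1⟩
        refine ⟨mul_mem hu hu1, a * a1, mul_mem ha ha1, mul_mem ha' ha1', b * b1, mul_mem hb hb1,
          mul_mem hb' hb1', ?_⟩
        have h2 := d2_mk_comm hAB hb ha1
        simp only [QuotientGroup.mk_mul]
        rw [h, h1]
        calc (a : G ⧸ B) * b * (a1 * b1) = a * (b * a1) * b1 := by group
          _ = a * (a1 * b) * b1 := by rw [h2]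
          _ = a * a1 * (b * b1) := by group
      inv_mem' := by
        rintro u ⟨hu, a, ha, ha', b, hb, hb', h⟩
        refine ⟨inv_mem hu, a⁻¹, inv_mem ha, inv_mem ha', b⁻¹, inv_mem hb, inv_mem hb', ?_⟩
        have h2 := d2_mk_comm hAB (inv_mem hb) (inv_mem ha)
        simp only [QuotientGroup.mk_inv] at h2 ⊢
        rw [h, mul_inv_rev, h2] }
  have hWA : ∀ w ∈ W, w ∈ A := fun w hw => hw.1
  have hcA : ∀ w ∈ A, ∀ h : G, ⁅w, h⁆ ∈ A := fun w hw h =>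
    commutator_le_left A ⊤ (commutator_mem_commutator hw (mem_top h))
  -- the subgroup `V`
  let V : Subgroup G :=
    { carrier := {h | ∀ w ∈ A, ⁅w, h⁆ ∈ W}
      one_mem' := by
        intro w _
        rw [commutatorElement_one_right]
        exact one_mem _
      mul_mem' := by
        intro h h' hh hh' w hw
        have e : ⁅w, h * h'⁆ = ⁅w, h⁆ * (⁅⁅w, h'⁆, h⁆⁻¹ * ⁅w, h'⁆) := by
          simp only [commutatorElement_def]
          group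
        rw [e]
        exact mul_mem (hh w hw) (mul_mem (inv_mem (hh _ (hcA w hw h'))) (hh' w hw))
      inv_mem' := by
        intro h hh w hw
        have e : ⁅w, h⁻¹⁆ = ⁅h⁻¹ * w * h⁻¹⁻¹, h⁆⁻¹ := by
          simp only [commutatorElement_def]
          group
        rw [e]
        exact inv_mem (hh _ ((inferInstance : A.Normal).conj_mem w hw h⁻¹)) }
  have hV : V = ⊤ := by
    rw [eq_top_iff, ← hgen, closure_le]
    rintro h (hh | rfl | rfl)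
    · intro w hw
      refine ⟨hcA w hw h, 1, one_mem _, one_mem _, 1, one_mem _, one_mem _, ?_⟩
      rw [(QuotientGroup.eq_one_iff (N := B) _).2 (hQ (commutator_mem_commutator hw hh))]
      simp
    · intro w hw
      refine ⟨hcA w hw _, ⁅w, h⁆, hcA w hw _, ?_, 1, one_mem _, one_mem _, by simp⟩
      exact commutator_mem_commutator (hAT hw) hy
    · intro w hw
      obtain ⟨b, hb, hb', h⟩ := d2_aux hAB hsq hz k 0 w hw (hAT' hw)
      rw [Nat.zero_add] at hb'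
      exact ⟨hcA w hw _, 1, one_mem _, one_mem _, b, hb, hb', by rw [h]; simp⟩
  have hAW : A ≤ W := by
    conv_lhs => rw [hA]
    rw [commutator_le]
    intro w hw h _
    have : h ∈ V := by
      rw [hV]
      exact mem_top _
    exact this w hw
  intro u hu
  obtain ⟨_, a, ha, ha', b, hb, hb', h⟩ := hAW hu
  refine ⟨a, ha, ha', b, hb, hb', ?_⟩
  rw [← QuotientGroup.eq_one_iff]
  simp only [QuotientGroup.mk_mul, QuotientGroup.mk_inv]
  rw [h, mul_inv_cancel]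

private theorem d2_Q_le_T2 (D : Dat G) : D.Q ≤ D.T2 := by
  intro q hq
  refine mem_map.2 ⟨D.g⁻¹ * q * D.g⁻¹⁻¹, D.hQT (D.hQ.conj_mem q hq _), ?_⟩
  show D.g * (D.g⁻¹ * q * D.g⁻¹⁻¹) * D.g⁻¹ = q
  group

private theorem d2_M_pos (D : Dat G) : 2 ≤ D.M := by
  unfold Dat.M
  omega

private theorem d2_h1 (D : Dat G) : ⁅D.S1, D.S1⁆ ≤ D.F (2 * D.M + 3) := by
  rw [commutator_le]
  intro u hu v hv
  have := d2_M_pos D
  exact D.F_anti (by omega) (D.F_comm (D.S1_le_F le_rfl hu) (D.S1_le_F le_rfl hv))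

private theorem d2_h2 (D : Dat G) : ∀ u ∈ D.S1, u * u ∈ D.F (2 * D.M + 3) := by
  intro u hu
  have := d2_M_pos D
  exact D.F_anti (by omega) (D.F_sq (D.S1_le_F le_rfl hu))

private theorem d2_h3 (D : Dat G) : ⁅D.S1, D.Q⁆ ≤ D.F (2 * D.M + 3) := by
  rw [commutator_le]
  intro u hu v hv
  have := d2_M_pos D
  exact D.F_anti (by omega) (D.F_comm (D.S1_le_F le_rfl hu) (D.Q_le_F le_rfl hv))

private theorem d2_r2 (D : Dat G) : D.g * D.r * D.g⁻¹ ∈ D.T2 :=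
  mem_map.2 ⟨D.r, D.hr, rfl⟩

/-- (3.2), first statement -/
theorem split1 [Finite G] (D : Dat G) : ∀ u ∈ D.S1, ∃ a ∈ D.S1, a ∈ D.T.lowerCentralSeries 1 ∧
    ∃ b ∈ D.S1, b ∈ D.T2.lowerCentralSeries D.N0 ∧ u * (a * b)⁻¹ ∈ D.F (2 * D.M + 3) := by
  have := D.S1_normal
  have := D.F_normal (2 * D.M + 3)
  have := D.L0_normal
  refine split_gen D.S1 (D.F (2 * D.M + 3)) D.Q D.L0 D.T D.T2 (S1_eq D) (d2_h1 D) (d2_h2 D) (d2_h3 D)
    (D.S1_le_Q.trans D.hQT) (D.S1_le_Q.trans (d2_Q_le_T2 D)) D.r (D.g * D.r * D.g⁻¹) D.hr (d2_r2 D)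
    (D.l - 1) ?_
  rw [conj_pow]
  exact D.h1

/-- (3.2), second statement -/
theorem split2 [Finite G] (D : Dat G) : ∀ u ∈ D.S1, ∃ a ∈ D.S1, a ∈ D.T2.lowerCentralSeries 1 ∧
    ∃ b ∈ D.S1, b ∈ D.T.lowerCentralSeries D.N0 ∧ u * (a * b)⁻¹ ∈ D.F (2 * D.M + 3) := by
  have := D.S1_normal
  have := D.F_normal (2 * D.M + 3)
  have := D.L0_normal
  refine split_gen D.S1 (D.F (2 * D.M + 3)) D.Q D.L0 D.T2 D.T (S1_eq D) (d2_h1 D) (d2_h2 D) (d2_h3 D)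
    (D.S1_le_Q.trans (d2_Q_le_T2 D)) (D.S1_le_Q.trans D.hQT) (D.g * D.r * D.g⁻¹) D.r (d2_r2 D) D.hr
    (D.l - 1) ?_
  rw [Set.pair_comm]
  exact D.h2

/-- (3.3) -/
theorem three_types [Finite G] (D : Dat G) : ∀ u ∈ D.S1, ∃ u1 ∈ D.S1, ∃ u2 ∈ D.S1, ∃ u3 ∈ D.S1,
    ∃ u3' ∈ D.S1, u1 ∈ D.T2.lowerCentralSeries D.N0 ∧ u2 ∈ D.T.lowerCentralSeries D.N0 ∧
      u3 ∈ D.T.lowerCentralSeries 1 ∧ u3' ∈ D.T2.lowerCentralSeries 1 ∧
        u3' * u3⁻¹ ∈ D.F (2 * D.M + 3) ∧ u * (u2 * u3 * u1)⁻¹ ∈ D.F (2 * D.M + 3) := by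
  have hBn := D.F_normal (2 * D.M + 3)
  intro u hu
  obtain ⟨a, ha, ha', b, hb, hb', h⟩ := split1 D u hu
  obtain ⟨c, hc, hc', u2, hu2, hu2', h2⟩ := split2 D a ha
  have hN0 : 1 ≤ D.N0 := Nat.one_le_two_pow
  refine ⟨b, hb, u2, hu2, u2⁻¹ * a, mul_mem (inv_mem hu2) ha, c, hc, hb', hu2', ?_, hc', ?_, ?_⟩
  · exact mul_mem (inv_mem (D.T.lowerCentralSeries_antitone hN0 hu2')) ha'
  · -- c * (u2⁻¹ * a)⁻¹ = c * a⁻¹ * u2
    have h3 : ((a : G) : G ⧸ D.F (2 * D.M + 3)) = c * u2 := by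
      have := (QuotientGroup.eq_one_iff (N := D.F (2 * D.M + 3)) _).2 h2
      simp only [QuotientGroup.mk_mul, QuotientGroup.mk_inv] at this
      rwa [mul_inv_eq_one] at this
    have h4 := d2_mk_comm (d2_h1 D) hc hu2
    rw [← QuotientGroup.eq_one_iff]
    simp only [QuotientGroup.mk_mul, QuotientGroup.mk_inv, mul_inv_rev, inv_inv]
    rw [h3, h4]
    group
  · have e : u * (u2 * (u2⁻¹ * a) * b)⁻¹ = u * (a * b)⁻¹ := by group
    rw [e]
    exact h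

end E1adH39
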