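import Pool.Agent.Lib.MP_1ad17e_al_h39.RowC2
import Pool.Agent.Lib.MP_1ad17e_al_h39.RowD1
import Pool.Agent.Lib.MP_1ad17e_al_h39.RowD2

/-! Row E1, (4.1)-(4.4). -/

set_option autoImplicit false

namespace E1adH39

open Subgroup
open scoped commutatorElement

variable {G : Type*} [Group G]

private theorem lcs_comm_top (H : Type*) [Group H] (b : ℕ) : ∀ a : ℕ,
    ⁅(⊤ : Subgroup H).lowerCentralSeries a, (⊤ : Subgroup H).lowerCentralSeries b⁆ ≤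
      (⊤ : Subgroup H).lowerCentralSeries (a + b + 1) := by
  induction b with
  | zero => exact fun a => le_rfl
  | succ b ih =>
    intro a
    have hN : ((⊤ : Subgroup H).lowerCentralSeries (a + (b + 1) + 1)).Normal := inferInstance
    let π : H →* H ⧸ (⊤ : Subgroup H).lowerCentralSeries (a + (b + 1) + 1) :=
      QuotientGroup.mk' _
    have h3 : ⁅⁅((⊤ : Subgroup H).lowerCentralSeries b).map π, (⊤ : Subgroup H).map π⁆,
        ((⊤ : Subgroup H).lowerCentralSeries a).map π⁆ = ⊥ := by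
      apply commutator_commutator_eq_bot_of_rotate
      · rw [← map_commutator, ← map_commutator, Subgroup.map_eq_bot_iff, QuotientGroup.ker_mk']
        have h1 : ⁅(⊤ : Subgroup H), (⊤ : Subgroup H).lowerCentralSeries a⁆ ≤
            (⊤ : Subgroup H).lowerCentralSeries (a + 1) := by
          rw [commutator_comm]
          exact le_rfl
        refine (commutator_mono h1 le_rfl).trans ((ih (a + 1)).trans (le_of_eq ?_))
        congr 1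
        omega
      · rw [← map_commutator, ← map_commutator, Subgroup.map_eq_bot_iff, QuotientGroup.ker_mk']
        refine (commutator_mono (ih a) le_rfl).trans (le_of_eq ?_)
        rfl
    rw [← map_commutator, ← map_commutator, Subgroup.map_eq_bot_iff, QuotientGroup.ker_mk'] at h3
    rw [commutator_comm]
    exact h3

/-- `⁅γ_(a+1), γ_(b+1)⁆ ≤ γ_(a+b+2)` -/
theorem lcs_comm (T : Subgroup G) (a b : ℕ) :
    ⁅T.lowerCentralSeries a, T.lowerCentralSeries b⁆ ≤ T.lowerCentralSeries (a + b + 1) := by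
  have h := lcs_comm_top T b a
  have h2 := Subgroup.map_mono (f := T.subtype) h
  rwa [map_commutator, top_subtype_lowerCentralSeries, top_subtype_lowerCentralSeries,
    top_subtype_lowerCentralSeries] at h2

private theorem comm_pow_of_commute {H : Type*} [Group H] {v r : H}
    (h : Commute r ⁅v, r⁆) (k : ℕ) : ⁅v, r ^ k⁆ = ⁅v, r⁆ ^ k := by
  induction k with
  | zero => simp
  | succ k ih =>
    have e : ⁅v, r ^ (k + 1)⁆ = ⁅v, r ^ k⁆ * (r ^ k * ⁅v, r⁆ * (r ^ k)⁻¹) := by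
      rw [pow_succ]
      simp only [commutatorElement_def]
      group
    rw [e, ih, (h.pow_left k).eq, mul_inv_cancel_right, pow_succ]

/-- `⁅v, r ^ k⁆ ≡ ⁅v, r⁆ ^ k` modulo `γ_(a+3)` for `v ∈ γ_(a+1)` (`lcs a`). -/
theorem comm_pow_lcs (T : Subgroup G) {a : ℕ} {v r : G} (hv : v ∈ T.lowerCentralSeries a)
    (hr : r ∈ T) (k : ℕ) : ⁅v, r ^ k⁆ * (⁅v, r⁆ ^ k)⁻¹ ∈ T.lowerCentralSeries (a + 2) := by
  rw [← top_subtype_lowerCentralSeries] at hv ⊢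
  obtain ⟨v', hv', rfl⟩ := hv
  have hN : ((⊤ : Subgroup T).lowerCentralSeries (a + 2)).Normal := inferInstance
  let π : T →* T ⧸ (⊤ : Subgroup T).lowerCentralSeries (a + 2) := QuotientGroup.mk' _
  let r' : T := ⟨r, hr⟩
  refine ⟨⁅v', r' ^ k⁆ * (⁅v', r'⁆ ^ k)⁻¹, ?_, ?_⟩
  · have h1 : ∀ z : T, π z = 1 ↔ z ∈ (⊤ : Subgroup T).lowerCentralSeries (a + 2) := fun z =>
      QuotientGroup.eq_one_iff z
    show _ ∈ (⊤ : Subgroup T).lowerCentralSeries (a + 2)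
    rw [← h1, map_mul, map_inv, map_pow, map_commutatorElement, map_commutatorElement, map_pow,
      mul_inv_eq_one]
    apply comm_pow_of_commute
    have h2 : ⁅v', r'⁆ ∈ (⊤ : Subgroup T).lowerCentralSeries (a + 1) :=
      commutator_mem_commutator hv' (mem_top r')
    have h3 : ⁅⁅v', r'⁆, r'⁆ ∈ (⊤ : Subgroup T).lowerCentralSeries (a + 2) :=
      commutator_mem_commutator h2 (mem_top r')
    rw [← h1, map_commutatorElement, map_commutatorElement, commutatorElement_eq_one_iff_mul_comm]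
      at h3
    exact h3.symm
  · show T.subtype (⁅v', r' ^ k⁆ * (⁅v', r'⁆ ^ k)⁻¹) = _
    rw [map_mul, map_inv, map_pow, map_commutatorElement, map_commutatorElement, map_pow]
    rfl

theorem Q_le_T2 (D : Dat G) : D.Q ≤ D.T2 := by
  intro u hu
  refine ⟨D.g⁻¹ * u * D.g, D.hQT ?_, ?_⟩
  · have := D.hQ.conj_mem u hu D.g⁻¹
    rwa [inv_inv] at this
  · simp only [MulEquiv.coe_toMonoidHom, MulAut.conj_apply]
    group

private theorem N0_eq (D : Dat G) : ∃ k, D.N0 = k + 1 ∧ 1 ≤ k := by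
  have h1 : 4 ≤ D.N0 := by
    have := D.hl
    unfold Dat.N0
    calc 4 = 2 ^ 2 := by norm_num
      _ ≤ 2 ^ (D.l - 1) := Nat.pow_le_pow_right (by norm_num) (by omega)
  exact ⟨D.N0 - 1, by omega, by omega⟩

/-- (4.1) -/
theorem gd_q (D : Dat G) {u : G} (hu : u ∈ D.Q) : D.Gd (D.M + 1) u 0 0 := by
  refine ⟨le_rfl, D.Q_le_F le_rfl hu, D.hQT hu, ⟨u, D.Q_le_F le_rfl hu, Q_le_T2 D hu, ?_⟩, ?_⟩
  · rw [mul_inv_cancel]
    exact one_mem _
  · obtain ⟨k, hk, hk1⟩ := N0_eq D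
    rw [hk, Nat.add_sub_cancel]
    nlinarith

/-- (4.2): RECIPE: `three_types`, and `Gd` for `u1` (`a = 0`, `b = N0`), `u2` (`a = N0`, `b = 0`), `u3`
(`a = b = 1`). -/
theorem S1_good [Finite G] (D : Dat G) :
    D.S1 ≤ closure {u | ∃ a b, D.Gd (2 * D.M + 2) u a b} ⊔ D.F (2 * D.M + 3) := by
  intro u hu
  obtain ⟨u1, h1, u2, h2, u3, h3, u3', h3', a1, a2, a3, a4, a5, a6⟩ := three_types D u hu
  obtain ⟨k, hk, hk1⟩ := N0_eq D
  have g1 : D.Gd (2 * D.M + 2) u1 0 D.N0 := by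
    refine ⟨by omega, D.S1_le_F le_rfl h1, D.hQT (D.S1_le_Q h1),
      ⟨u1, D.S1_le_F le_rfl h1, a1, ?_⟩, ?_⟩
    · rw [mul_inv_cancel]
      exact one_mem _
    · rw [hk, Nat.add_sub_cancel]
      nlinarith
  have g2 : D.Gd (2 * D.M + 2) u2 D.N0 0 := by
    refine ⟨by omega, D.S1_le_F le_rfl h2, a2,
      ⟨u2, D.S1_le_F le_rfl h2, Q_le_T2 D (D.S1_le_Q h2), ?_⟩, ?_⟩
    · rw [mul_inv_cancel]
      exact one_mem _
    · rw [hk, Nat.add_sub_cancel]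
      have e : D.M * (k * (k + 1 + 1) + (0 + 1)) + 2 * (k + 1) * (k + 1 + 1) =
        D.M * (k + 1) * (k + 1) + 2 * (k + 1) * (k + 2) := by ring
      rw [e]
      have e2 : D.M * (k + 1) * 2 ≤ D.M * (k + 1) * (k + 1) := Nat.mul_le_mul_left _ (by omega)
      nlinarith
  have g3 : D.Gd (2 * D.M + 2) u3 1 1 := by
    refine ⟨by omega, D.S1_le_F le_rfl h3, a3, ⟨u3', D.S1_le_F le_rfl h3', a4, a5⟩, ?_⟩
    rw [hk, Nat.add_sub_cancel]
    nlinarith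
  have hin : ∀ {w : G} {a b : ℕ}, D.Gd (2 * D.M + 2) w a b →
      w ∈ closure {u | ∃ a b, D.Gd (2 * D.M + 2) u a b} ⊔ D.F (2 * D.M + 3) := fun {w a b} h =>
    (le_sup_left : _ ≤ closure {u | ∃ a b, D.Gd (2 * D.M + 2) u a b} ⊔ D.F (2 * D.M + 3))
      (subset_closure ⟨a, b, h⟩)
  have e : u = (u * (u2 * u3 * u1)⁻¹) * (u2 * u3 * u1) := by group
  rw [e]
  exact mul_mem ((le_sup_right : D.F (2 * D.M + 3) ≤ _) a6)
    (mul_mem (mul_mem (hin g2) (hin g3)) (hin g1))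

/-- (4.3) -/
theorem gd_comm (D : Dat G) {om om' a b a' b' : ℕ} {v w : G} (hv : D.Gd om v a b)
    (hw : D.Gd om' w a' b') : D.Gd (om + om') ⁅v, w⁆ (a + a' + 1) (b + b' + 1) := by
  obtain ⟨v', hv1, hv2, hv3⟩ := hv.hT2
  obtain ⟨w', hw1, hw2, hw3⟩ := hw.hT2
  refine ⟨by have := hv.hom; omega, D.F_comm hv.hv hw.hv,
    lcs_comm D.T a a' (commutator_mem_commutator hv.hT1 hw.hT1),
    ⟨⁅v', w'⁆, D.F_comm hv1 hw1,
      lcs_comm D.T2 b b' (commutator_mem_commutator hv2 hw2),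
      Dat.cg_comm_congr hv1 hw1 hv3 hw3⟩, ?_⟩
  have i1 := hv.hI
  have i2 := hw.hI
  have e1 : D.N0 * (om + om') = D.N0 * om + D.N0 * om' := by ring
  have e2 : D.M * ((D.N0 - 1) * (a + a' + 1 + 1) + (b + b' + 1 + 1)) +
      2 * D.N0 * (a + a' + 1 + 1) =
      (D.M * ((D.N0 - 1) * (a + 1) + (b + 1)) + 2 * D.N0 * (a + 1)) +
      (D.M * ((D.N0 - 1) * (a' + 1) + (b' + 1)) + 2 * D.N0 * (a' + 1)) := by ring
  rw [e1, e2]
  exact Nat.add_le_add i1 i2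

private theorem comm_mem (D : Dat G) {om : ℕ} {v : G} (hv : v ∈ D.F om) (t : G) :
    ⁅v, t⁆ ∈ D.F om := by
  have e : ⁅v, t⁆ = v * (t * v⁻¹ * t⁻¹) := by
    rw [commutatorElement_def]
    group
  rw [e]
  exact mul_mem hv (D.conj_mem_F (inv_mem hv) t)

/-- (4.4). RECIPE: the good element is `⁅v, s⁆ * (⁅v, r⁆ ^ (2 ^ l))⁻¹`; for `T2`:
`⁅v', s'⁆ * (⁅v', r2⁆ ^ (2 ^ l))⁻¹` with `s' = g s g⁻¹ = r2 ^ (2 ^ l)`, `s' ≡ s` modulo `F (2M+2)` by
`conj_s`. `l * M ≥ 3 * M ≥ 2 * M + 2`. -/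
theorem gd_s [Finite G] (D : Dat G) {om a b : ℕ} {v : G} (hv : D.Gd om v a b) :
    ∃ w, D.Gd (om + (2 * D.M + 1)) w (a + 2) (b + 2) ∧ D.Cg (om + (2 * D.M + 1) + 1) w ⁅v, D.s⁆ := by
  obtain ⟨v', hv1, hv2, hv3⟩ := hv.hT2
  have hlM : 2 * D.M + 2 ≤ D.M * D.l := by
    have h1 : D.M * 3 ≤ D.M * D.l := Nat.mul_le_mul_left _ D.hl
    have h2 : 2 ≤ D.M := by unfold Dat.M; omega
    omega
  have hr2 : D.r2 ∈ D.T2 := ⟨D.r, D.hr, by simp [Dat.r2, MulAut.conj_apply]⟩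
  have hs' : D.r2 ^ (2 ^ D.l) = D.g * D.s * D.g⁻¹ := by
    unfold Dat.r2 Dat.s
    rw [conj_pow]
  -- the correction terms
  have hc : ∀ {u t : G}, u ∈ D.F om → (⁅u, t⁆ ^ (2 ^ D.l)) ∈ D.F (om + (2 * D.M + 1) + 1) := by
    intro u t hu
    refine D.F_anti ?_ (D.F_pow (comm_mem D hu t) D.l)
    omega
  have hcg : ∀ {u t z : G}, u ∈ D.F om →
      D.Cg (om + (2 * D.M + 1) + 1) (⁅u, z⁆ * (⁅u, t⁆ ^ (2 ^ D.l))⁻¹) ⁅u, z⁆ := by
    intro u t z hu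
    have h1 : D.Cg (om + (2 * D.M + 1) + 1) (⁅u, t⁆ ^ (2 ^ D.l))⁻¹ 1 :=
      Dat.cg_one.2 (inv_mem (hc hu))
    have h2 := (Dat.Cg.refl (D := D) (om + (2 * D.M + 1) + 1) ⁅u, z⁆).mul h1
    rwa [mul_one] at h2
  have hss : D.g * D.s * D.g⁻¹ ∈ D.F (2 * D.M + 1) := D.conj_mem_F (D.s_mem_F le_rfl) D.g
  have hvs : D.Cg (om + (2 * D.M + 1) + 1) ⁅v', D.g * D.s * D.g⁻¹⁆ ⁅v, D.s⁆ :=
    Dat.cg_comm_congr hv1 hss hv3 (conj_s D D.g)
  refine ⟨⁅v, D.s⁆ * (⁅v, D.r⁆ ^ (2 ^ D.l))⁻¹, ⟨?_, ?_, ?_, ?_, ?_⟩, hcg hv.hv⟩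
  · have := hv.hom
    omega
  · exact mul_mem (D.F_comm hv.hv (D.s_mem_F le_rfl))
      (inv_mem (D.F_anti (Nat.le_succ _) (hc hv.hv)))
  · exact comm_pow_lcs D.T hv.hT1 D.hr (2 ^ D.l)
  · refine ⟨⁅v', D.g * D.s * D.g⁻¹⁆ * (⁅v', D.r2⁆ ^ (2 ^ D.l))⁻¹, ?_, ?_, ?_⟩
    · exact mul_mem (D.F_comm hv1 hss) (inv_mem (D.F_anti (Nat.le_succ _) (hc hv1)))
    · rw [← hs']
      exact comm_pow_lcs D.T2 hv2 hr2 (2 ^ D.l)
    · exact ((hcg hv1).trans hvs).trans (hcg hv.hv).symm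
  · have i1 := hv.hI
    obtain ⟨k, hk, hk1⟩ := N0_eq D
    rw [hk, Nat.add_sub_cancel] at i1 ⊢
    have e1 : (k + 1) * (om + (2 * D.M + 1)) = (k + 1) * om + (k + 1) * (2 * D.M + 1) := by ring
    have e2 : D.M * (k * (a + 2 + 1) + (b + 2 + 1)) + 2 * (k + 1) * (a + 2 + 1) =
      (D.M * (k * (a + 1) + (b + 1)) + 2 * (k + 1) * (a + 1)) +
      (2 * D.M * (k + 1) + 4 * (k + 1)) := by ring
    rw [e1, e2]
    refine Nat.add_le_add i1 ?_
    nlinarith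

end E1adH39
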