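import Pool.Agent.Lib.MP_1ad17e_al_h39.RowE1

/-! Row E2, (4.5). -/

set_option autoImplicit false

namespace E1adH39

open Subgroup
open scoped commutatorElement

variable {G : Type*} [Group G]

private theorem e2_X_le (D : Dat G) (m : ℕ) : D.X m ⊆ (D.F m : Set G) := by
  rintro z (⟨om, v, a, b, j, h, hj, rfl⟩ | ⟨j, hj, rfl⟩)
  · rw [← hj]
    exact D.F_pow h.hv j
  · rw [← hj]
    exact D.F_pow (D.s_mem_F le_rfl) j

private theorem e2_closure_le (D : Dat G) (m : ℕ) : closure (D.X m) ≤ D.F m :=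
  (closure_le _).2 (e2_X_le D m)

private theorem e2_of_cg (D : Dat G) {m : ℕ} {u v : G} (h : D.Cg (m + 1) u v)
    (hv : v ∈ closure (D.X m) ⊔ D.F (m + 1)) : u ∈ closure (D.X m) ⊔ D.F (m + 1) := by
  have e : u = (u * v⁻¹) * v := by group
  rw [e]
  exact mul_mem ((le_sup_right : _ ≤ closure (D.X m) ⊔ D.F (m + 1)) h) hv

private theorem e2_split (D : Dat G) {m : ℕ} {u : G} (hu : u ∈ closure (D.X m) ⊔ D.F (m + 1)) :
    ∃ v ∈ closure (D.X m), D.Cg (m + 1) u v := by
  have := D.F_normal (m + 1)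
  obtain ⟨y, hy, z, hz, rfl⟩ := mem_sup_of_normal_right.1 hu
  refine ⟨y, hy, ?_⟩
  show y * z * y⁻¹ ∈ D.F (m + 1)
  exact D.conj_mem_F hz y

private theorem e2_X_mem (D : Dat G) {m : ℕ} {u : G} (hu : u ∈ D.X m) :
    u ∈ closure (D.X m) ⊔ D.F (m + 1) := (le_sup_left : closure (D.X m) ≤ _) (subset_closure hu)

private theorem e2_gen_vs [Finite G] (D : Dat G) {om a b i j m : ℕ} {v : G} (hv : D.Gd om v a b)
    (hm : om + D.M * i + (2 * D.M + 1 + D.M * j) = m) :
    ⁅v ^ (2 ^ i), D.s ^ (2 ^ j)⁆ ∈ closure (D.X m) ⊔ D.F (m + 1) := by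
  obtain ⟨w, hw, hws⟩ := gd_s D hv
  have h1 := Dat.cg_comm_pow (D := D) hv.hom (by omega : D.M + 1 ≤ 2 * D.M + 1) hv.hv
    (D.s_mem_F le_rfl) i j
  have h2 := Dat.cg_pow_congr (D := D) (a := om + (2 * D.M + 1)) (by omega) hw.hv hws (i + j)
  have hm' : om + (2 * D.M + 1) + D.M * (i + j) = m := by
    rw [← hm]
    ring
  rw [hm'] at h1 h2
  refine e2_of_cg D (h1.trans h2.symm) (e2_X_mem D (Or.inl ?_))
  exact ⟨om + (2 * D.M + 1), w, _, _, i + j, hw, hm', rfl⟩

private theorem e2_gen [Finite G] (D : Dat G) {a b : ℕ} {x y : G} (hx : x ∈ D.X a) (hy : y ∈ D.X b) :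
    ⁅x, y⁆ ∈ closure (D.X (a + b)) ⊔ D.F (a + b + 1) := by
  rcases hx with ⟨om, v, al, be, i, hv, hi, rfl⟩ | ⟨i, hi, rfl⟩
  · rcases hy with ⟨om', w, al', be', j, hw, hj, rfl⟩ | ⟨j, hj, rfl⟩
    · have h1 := Dat.cg_comm_pow (D := D) hv.hom hw.hom hv.hv hw.hv i j
      have hm' : om + om' + D.M * (i + j) = a + b := by
        rw [← hi, ← hj]
        ring
      rw [hm'] at h1
      refine e2_of_cg D h1 (e2_X_mem D (Or.inl ?_))
      exact ⟨om + om', ⁅v, w⁆, _, _, i + j, gd_comm D hv hw, hm', rfl⟩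
    · exact e2_gen_vs D hv (by omega)
  · rcases hy with ⟨om', w, al', be', j, hw, hj, rfl⟩ | ⟨j, hj, rfl⟩
    · rw [← commutatorElement_inv]
      exact inv_mem (e2_gen_vs D hw (by omega))
    · have e : ⁅D.s ^ (2 ^ i), D.s ^ (2 ^ j)⁆ = 1 :=
        commutatorElement_eq_one_iff_commute.2 ((Commute.refl D.s).pow_pow _ _)
      rw [e]
      exact one_mem _

/-- commutators -/
theorem closure_comm [Finite G] (D : Dat G) {a b : ℕ} (ha : D.M + 1 ≤ a) (hb : D.M + 1 ≤ b) {u v : G}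
    (hu : u ∈ closure (D.X a) ⊔ D.F (a + 1)) (hv : v ∈ closure (D.X b) ⊔ D.F (b + 1)) :
    ⁅u, v⁆ ∈ closure (D.X (a + b)) ⊔ D.F (a + b + 1) := by
  obtain ⟨u1, hu1, hc⟩ := e2_split D hu
  obtain ⟨v1, hv1, hc'⟩ := e2_split D hv
  have huF : u ∈ D.F a := Dat.Cg.mem hc (e2_closure_le D a hu1) (Nat.le_succ a)
  have hvF : v ∈ D.F b := Dat.Cg.mem hc' (e2_closure_le D b hv1) (Nat.le_succ b)
  refine e2_of_cg D (Dat.cg_comm_congr huF hvF hc hc') ?_
  clear hc hc' huF hvF hu hv u v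
  induction hu1 using closure_induction with
  | mem x hx =>
    induction hv1 using closure_induction with
    | mem y hy => exact e2_gen D hx hy
    | one =>
      rw [commutatorElement_one_right]
      exact one_mem _
    | mul v v' h h' ih ih' =>
      exact e2_of_cg D (Dat.cg_comm_mul_right (by omega) (e2_X_le D a hx) (e2_closure_le D b h)
        (e2_closure_le D b h')) (mul_mem ih ih')
    | inv v h ih =>
      exact e2_of_cg D (Dat.cg_comm_inv_right (by omega) (e2_X_le D a hx) (e2_closure_le D b h))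
        (inv_mem ih)
  | one =>
    rw [commutatorElement_one_left]
    exact one_mem _
  | mul v v' h h' ih ih' =>
    exact e2_of_cg D (Dat.cg_comm_mul_left (by omega) (e2_closure_le D a h)
      (e2_closure_le D a h') (e2_closure_le D b hv1)) (mul_mem ih ih')
  | inv v h ih =>
    exact e2_of_cg D (Dat.cg_comm_inv_left (by omega) (e2_closure_le D a h) (e2_closure_le D b hv1))
      (inv_mem ih)

/-- squares -/
theorem closure_sq [Finite G] (D : Dat G) {a : ℕ} (ha : D.M + 1 ≤ a) {u : G}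
    (hu : u ∈ closure (D.X a) ⊔ D.F (a + 1)) :
    u * u ∈ closure (D.X (a + D.M)) ⊔ D.F (a + D.M + 1) := by
  obtain ⟨u1, hu1, hc⟩ := e2_split D hu
  have huF : u ∈ D.F a := Dat.Cg.mem hc (e2_closure_le D a hu1) (Nat.le_succ a)
  have h1 := Dat.cg_pow_congr ha huF hc 1
  rw [mul_one, pow_one, pow_two, pow_two] at h1
  refine e2_of_cg D h1 ?_
  clear hc huF h1 hu u
  induction hu1 using closure_induction with
  | mem x hx =>
    refine e2_X_mem D ?_
    rcases hx with ⟨om, v, al, be, j, hv, hj, rfl⟩ | ⟨j, hj, rfl⟩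
    · refine Or.inl ⟨om, v, al, be, j + 1, hv, ?_, ?_⟩
      · rw [← hj]
        ring
      · rw [← pow_add]
        congr 1
        ring
    · refine Or.inr ⟨j + 1, ?_, ?_⟩
      · rw [← hj]
        ring
      · rw [← pow_add]
        congr 1
        ring
  | one =>
    rw [mul_one]
    exact one_mem _
  | mul v v' h h' ih ih' =>
    have h2 := Dat.cg_mul_pow ha (e2_closure_le D a h) (e2_closure_le D a h') 1
    rw [mul_one, pow_one, pow_two, pow_two, pow_two] at h2
    exact e2_of_cg D h2 (mul_mem ih ih')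
  | inv v h ih =>
    have e : v⁻¹ * v⁻¹ = (v * v)⁻¹ := by group
    rw [e]
    exact inv_mem ih

private theorem e2_M_pos (D : Dat G) : 2 ≤ D.M := by
  unfold Dat.M
  omega

private theorem e2_wt [Finite G] (D : Dat G) {u : G} {a : ℕ} (hu : Wt D.Q D.S0 D.S1 D.M u a) :
    ∀ m ≤ a, u ∈ closure (D.X m) ⊔ D.F (m + 1) := by
  have hlt : ∀ {u : G} {a : ℕ}, Wt D.Q D.S0 D.S1 D.M u a → ∀ m < a,
      u ∈ closure (D.X m) ⊔ D.F (m + 1) := fun {u a} h m hm =>
    (le_sup_right : _ ≤ closure (D.X m) ⊔ D.F (m + 1)) (D.F_anti hm h)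
  have hQ : ∀ {u : G} {a : ℕ}, Wt D.Q D.S0 D.S1 D.M u a → u ∈ D.Q := fun {u a} h => D.F_le a h
  induction hu with
  | q h =>
    intro m hm
    rcases Nat.lt_or_ge m (D.M + 1) with h1 | h1
    · exact hlt (Wt.q h) m h1
    · obtain rfl : m = D.M + 1 := le_antisymm hm h1
      refine e2_X_mem D (Or.inl ⟨D.M + 1, _, 0, 0, 0, gd_q D h, by ring, ?_⟩)
      rw [pow_zero, pow_one]
  | @s0 u h =>
    intro m hm
    rcases Nat.lt_or_ge m (2 * D.M + 1) with h1 | h1
    · exact hlt (Wt.s0 h) m h1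
    · obtain rfl : m = 2 * D.M + 1 := le_antisymm hm h1
      have hle : D.S0 ≤ closure (D.X (2 * D.M + 1)) ⊔ D.F (2 * D.M + 1 + 1) := by
        show normalClosure {D.s} ≤ _
        unfold normalClosure
        rw [closure_le]
        intro z hz
        obtain ⟨s', hs', hc⟩ := Group.mem_conjugatesOfSet_iff.1 hz
        rw [Set.mem_singleton_iff] at hs'
        subst hs'
        obtain ⟨g, hg⟩ := isConj_iff.1 hc
        rw [← hg]
        refine e2_of_cg D (v := D.s) (conj_s D g) (e2_X_mem D (Or.inr ⟨0, by ring, ?_⟩))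
        rw [pow_zero, pow_one]
      exact hle h
  | @s1 u h =>
    intro m hm
    rcases Nat.lt_or_ge m (2 * D.M + 2) with h1 | h1
    · exact hlt (Wt.s1 h) m h1
    · obtain rfl : m = 2 * D.M + 2 := le_antisymm hm h1
      have h2 := S1_good D h
      refine (sup_le_sup_right ?_ _ : _ ≤ closure (D.X (2 * D.M + 2)) ⊔ D.F (2 * D.M + 2 + 1)) h2
      rw [closure_le]
      rintro z ⟨a, b, hz⟩
      refine subset_closure (Or.inl ⟨2 * D.M + 2, z, a, b, 0, hz, by ring, ?_⟩)
      rw [pow_zero, pow_one]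
  | one =>
    intro m _
    exact one_mem _
  | @comm u v a b hu hv ihu ihv =>
    intro m hm
    rcases Nat.lt_or_ge m (a + b) with h1 | h1
    · exact hlt (Wt.comm hu hv) m h1
    · obtain rfl : m = a + b := le_antisymm hm h1
      rcases Nat.lt_or_ge a (D.M + 1) with ha | ha
      · have h2 : u ∈ D.F (a + 1) := D.Q_le_F ha (hQ hu)
        have h3 : ⁅u, v⁆ ∈ D.F (a + b + 1) := by
          have := D.F_comm h2 (show v ∈ D.F b from hv)
          rwa [show a + 1 + b = a + b + 1 by ring] at this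
        exact (le_sup_right : _ ≤ closure (D.X (a + b)) ⊔ _) h3
      rcases Nat.lt_or_ge b (D.M + 1) with hb | hb
      · have h2 : v ∈ D.F (b + 1) := D.Q_le_F hb (hQ hv)
        have h3 : ⁅u, v⁆ ∈ D.F (a + b + 1) := by
          have := D.F_comm (show u ∈ D.F a from hu) h2
          rwa [show a + (b + 1) = a + b + 1 by ring] at this
        exact (le_sup_right : _ ≤ closure (D.X (a + b)) ⊔ _) h3
      exact closure_comm D ha hb (ihu a le_rfl) (ihv b le_rfl)
  | @sq u a hu ihu =>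
    intro m hm
    rcases Nat.lt_or_ge m (a + D.M) with h1 | h1
    · exact hlt (Wt.sq hu) m h1
    · obtain rfl : m = a + D.M := le_antisymm hm h1
      rcases Nat.lt_or_ge a (D.M + 1) with ha | ha
      · have h2 : u ∈ D.F (a + 1) := D.Q_le_F ha (hQ hu)
        have h3 : u * u ∈ D.F (a + D.M + 1) := by
          have := D.F_sq h2
          rwa [show a + 1 + D.M = a + D.M + 1 by ring] at this
        exact (le_sup_right : _ ≤ closure (D.X (a + D.M)) ⊔ _) h3
      exact closure_sq D ha (ihu a le_rfl)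
  | mul _ _ ih ih' => exact fun m hm => mul_mem (ih m hm) (ih' m hm)
  | inv _ ih => exact fun m hm => inv_mem (ih m hm)
  | mono _ hab ih => exact fun m hm => ih m (hm.trans hab)

/-- (4.5) -/
theorem F_le_closure [Finite G] (D : Dat G) (m : ℕ) : D.F m ≤ closure (D.X m) ⊔ D.F (m + 1) :=
  fun _ hu => e2_wt D hu m le_rfl

end E1adH39
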