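import Mathlib

/-! # The layer relation (5.1) -/

set_option autoImplicit false

namespace Pool.Agent.P4b

open Polynomial

section

variable {A : Type*} [AddCommGroup A] (ρ : AddMonoid.End A) (As : ℕ → AddSubgroup A)

/-- The polynomial `p` in `ρ` has weight at least `t`. -/
private def Wtp (t : ℕ) (p : ℤ[X]) : Prop :=
  ∀ i, ∀ x ∈ As i, (aeval ρ p) x ∈ As (i + t)

variable {ρ As}

private theorem Wtp.add {t : ℕ} {p q : ℤ[X]} (hp : Wtp ρ As t p) (hq : Wtp ρ As t q) :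
    Wtp ρ As t (p + q) := by
  intro i x hx
  rw [map_add]
  exact (As (i + t)).add_mem (hp i x hx) (hq i x hx)

private theorem Wtp.neg {t : ℕ} {p : ℤ[X]} (hp : Wtp ρ As t p) : Wtp ρ As t (-p) := by
  intro i x hx
  rw [map_neg]
  exact (As (i + t)).neg_mem (hp i x hx)

private theorem Wtp.sub {t : ℕ} {p q : ℤ[X]} (hp : Wtp ρ As t p) (hq : Wtp ρ As t q) :
    Wtp ρ As t (p - q) := by
  rw [sub_eq_add_neg]
  exact hp.add hq.neg

private theorem Wtp.mul {s t : ℕ} {p q : ℤ[X]} (hp : Wtp ρ As s p) (hq : Wtp ρ As t q) :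
    Wtp ρ As (s + t) (p * q) := by
  intro i x hx
  rw [map_mul, add_comm s t, ← add_assoc]
  exact hp (i + t) _ (hq i x hx)

private theorem Wtp.mono (hanti : ∀ i j, i ≤ j → As j ≤ As i) {s t : ℕ} {p : ℤ[X]}
    (hp : Wtp ρ As t p) (hst : s ≤ t) : Wtp ρ As s p :=
  fun i x hx => hanti _ _ (Nat.add_le_add_left hst i) (hp i x hx)

private theorem Wtp.zero_all (hρ : ∀ i, ∀ x ∈ As i, ρ x ∈ As i) (p : ℤ[X]) : Wtp ρ As 0 p := by
  induction p using Polynomial.induction_on with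
  | C a =>
    intro i x hx
    rw [aeval_C, add_zero]
    have : (algebraMap ℤ (AddMonoid.End A) a) x = a • x := by
      rw [eq_intCast]
      rfl
    rw [this]
    exact (As i).zsmul_mem hx a
  | add p q hp hq => exact hp.add hq
  | monomial n a ih =>
    intro i x hx
    rw [pow_succ, ← mul_assoc, map_mul, aeval_X]
    exact ih i _ (hρ i x hx)

private theorem Wtp.two_pow (hρ : ∀ i, ∀ x ∈ As i, ρ x ∈ As i) {M : ℕ}
    (h2 : ∀ i, ∀ x ∈ As i, x + x ∈ As (i + M)) (J : ℕ) : Wtp ρ As (M * J) ((-2) ^ J) := by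
  induction J with
  | zero => exact Wtp.zero_all hρ _
  | succ J ih =>
    rw [pow_succ, Nat.mul_succ]
    refine ih.mul ?_
    intro i x hx
    rw [map_neg, map_ofNat]
    refine (As (i + M)).neg_mem ?_
    have : ((2 : AddMonoid.End A)) x = x + x := by
      rw [← one_add_one_eq_two]
      rfl
    have h3 := h2 i x hx
    rw [← this] at h3
    exact h3

private theorem sub_one_pow_two_pow (a : ℕ) :
    ∃ h : ℤ[X], (X - 1 : ℤ[X]) ^ (2 ^ a) = (X ^ (2 ^ a) - 1) - 2 * (X - 1) * h := by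
  induction a with
  | zero => exact ⟨0, by ring⟩
  | succ a ih =>
    obtain ⟨h, hh⟩ := ih
    obtain ⟨g, hg⟩ : (X - 1 : ℤ[X]) ∣ X ^ (2 ^ a) - 1 := sub_one_dvd_pow_sub_one X (2 ^ a)
    refine ⟨g + 2 * (X ^ (2 ^ a) - 1) * h - 2 * (X - 1) * h ^ 2, ?_⟩
    rw [pow_succ 2 a, pow_mul (X - 1 : ℤ[X]), hh, pow_mul (X : ℤ[X])]
    linear_combination (-2 : ℤ[X]) * hg

/-- The expansion of `R ^ (N0 (J + 1))`. -/
private theorem expand (hanti : ∀ i j, i ≤ j → As j ≤ As i)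
    (hρ : ∀ i, ∀ x ∈ As i, ρ x ∈ As i) {M : ℕ} (h2 : ∀ i, ∀ x ∈ As i, x + x ∈ As (i + M))
    {R H ε h : ℤ[X]} (hH : H ^ 2 = ε - 2 * H) (hε : Wtp ρ As (2 * M + 1) ε) (J : ℕ) :
    ∃ z G E₁ E₂ : ℤ[X], Wtp ρ As (M * (J + 1) + 1) E₁ ∧ Wtp ρ As (M * J + 1) E₂ ∧
      (H - 2 * R * h) ^ (J + 1) =
        (-2) ^ J * (H * (1 + R * z)) + (-2) ^ (J + 1) * (R * G) + (E₁ + H * E₂) := by
  have hz := Wtp.zero_all (ρ := ρ) hρ
  have h2' : Wtp ρ As M (-2) := by
    have := Wtp.two_pow (ρ := ρ) hρ h2 1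
    rwa [pow_one, mul_one] at this
  induction J with
  | zero =>
    refine ⟨0, h, 0, 0, ?_, ?_, by ring⟩
    · intro i x _
      rw [map_zero]
      exact (As _).zero_mem
    · intro i x _
      rw [map_zero]
      exact (As _).zero_mem
  | succ J ih =>
    obtain ⟨z, G, E₁, E₂, h₁, h₂, heq⟩ := ih
    refine ⟨z + h * (1 + R * z) + G, h * (R * G),
      (-2) ^ J * (ε * (1 + R * z)) + ε * E₂ + (-2) * (R * h * E₁),
      E₁ + (-2) * E₂ + (-2) * (R * h * E₂), ?_, ?_, ?_⟩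
    · refine ((Wtp.mono hanti ((Wtp.two_pow (ρ := ρ) hρ h2 J).mul (hε.mul (hz _))) ?_).add
        (Wtp.mono hanti (hε.mul h₂) ?_)).add
        (Wtp.mono hanti (h2'.mul ((hz _).mul h₁)) ?_)
      · have : M * (J + 1 + 1) = M * J + 2 * M := by ring
        omega
      · have : M * (J + 1 + 1) = M * J + 2 * M := by ring
        omega
      · have : M * (J + 1 + 1) = M * (J + 1) + M := by ring
        omega
    · refine (h₁.add (Wtp.mono hanti (h2'.mul h₂) ?_)).add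
        (Wtp.mono hanti (h2'.mul ((hz _).mul h₂)) ?_)
      · have : M * (J + 1) = M * J + M := by ring
        omega
      · have : M * (J + 1) = M * J + M := by ring
        omega
    · rw [pow_succ _ (J + 1), heq]
      have e1 : ε = H ^ 2 + 2 * H := by rw [hH]; ring
      rw [e1]
      ring

/-- (5.1): the layer relation. -/
theorem layer_relation (ρ : AddMonoid.End A) (As : ℕ → AddSubgroup A) (M : ℕ) (hM : 1 ≤ M)
    (a : ℕ) (h0 : ∀ x, x ∈ As 0) (hanti : ∀ i j, i ≤ j → As j ≤ As i)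
    (hρ : ∀ i, ∀ x ∈ As i, ρ x ∈ As i) (h2 : ∀ i, ∀ x ∈ As i, x + x ∈ As (i + M))
    (hε : ∀ i, ∀ x ∈ As i, (ρ ^ (2 * 2 ^ a)) x - x ∈ As (i + (2 * M + 1)))
    (v : A) (J : ℕ) (hv : ((ρ - 1) ^ (2 ^ a * (J + 1))) v = 0) :
    2 ^ J • ((ρ ^ 2 ^ a) v - v) ∈ As (M * J + 1) := by
  obtain ⟨h, hh⟩ := sub_one_pow_two_pow a
  set H : ℤ[X] := X ^ (2 ^ a) - 1 with hHdef
  set R : ℤ[X] := X - 1 with hRdef
  have hH : H ^ 2 = (X ^ (2 * 2 ^ a) - 1) - 2 * H := by
    rw [hHdef]; ring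
  have hε' : Wtp ρ As (2 * M + 1) (X ^ (2 * 2 ^ a) - 1 : ℤ[X]) := by
    intro i x hx
    rw [map_sub, map_pow, aeval_X, map_one]
    exact hε i x hx
  obtain ⟨z, G, E₁, E₂, h₁, h₂, heq⟩ := expand (ρ := ρ) (As := As) hanti hρ h2
    (R := R) (h := h) hH hε' J
  -- the geometric series
  obtain ⟨g, hg⟩ : (1 + R * z) ∣ 1 - (-(R * z)) ^ (2 ^ a * (J + 1)) := by
    have := sub_one_dvd_pow_sub_one (-(R * z)) (2 ^ a * (J + 1))
    have e1 : 1 + R * z = -(-(R * z) - 1) := by ring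
    rw [e1, neg_dvd, ← dvd_neg, neg_sub]
    exact this
  have hK : (aeval ρ (R ^ (2 ^ a * (J + 1)))) v = 0 := by
    rw [map_pow, hRdef, map_sub, aeval_X, map_one]
    exact hv
  have hK' : ∀ p : ℤ[X], (aeval ρ (p * R ^ (2 ^ a * (J + 1)))) v = 0 := by
    intro p
    rw [map_mul]
    change (aeval ρ p) ((aeval ρ (R ^ (2 ^ a * (J + 1)))) v) = 0
    rw [hK, map_zero]
  have hmain : (aeval ρ ((-2) ^ J * H)) v ∈ As (M * J + 1) := by
    have e1 : (-2) ^ J * H = g * R ^ (2 ^ a * (J + 1)) - (-2) ^ (J + 1) * (R * G * g)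
        - (E₁ * g + H * g * E₂) + (-2) ^ J * H * (-z) ^ (2 ^ a * (J + 1)) *
          R ^ (2 ^ a * (J + 1)) := by
      have e2 : R ^ (2 ^ a * (J + 1)) = (H - 2 * R * h) ^ (J + 1) := by
        rw [pow_mul, hh]
      have e3 : (-(R * z)) ^ (2 ^ a * (J + 1)) =
          (-z) ^ (2 ^ a * (J + 1)) * R ^ (2 ^ a * (J + 1)) := by
        rw [← mul_pow]; congr 1; ring
      rw [e3] at hg
      have e4 : g * R ^ (2 ^ a * (J + 1)) = g * ((-2) ^ J * (H * (1 + R * z)) +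
          (-2) ^ (J + 1) * (R * G) + (E₁ + H * E₂)) := by
        rw [← heq, ← e2]
      rw [e4]
      linear_combination (-2) ^ J * H * hg
    rw [e1, map_add, map_sub, map_sub]
    have hz := Wtp.zero_all (ρ := ρ) hρ
    have hanti' := hanti
    have hK2 : ∀ p : ℤ[X], (aeval ρ (p * R ^ (2 ^ a * (J + 1)))) v ∈ As (M * J + 1) := by
      intro p
      have h3 := (As (M * J + 1)).zero_mem
      rwa [← hK' p] at h3
    refine (As _).add_mem ((As _).sub_mem ((As _).sub_mem ?_ ?_) ?_) ?_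
    · exact hK2 _
    · have h3 := Wtp.mono hanti ((Wtp.two_pow (ρ := ρ) hρ h2 (J + 1)).mul (hz (R * G * g)))
        (s := M * J + 1) (by rw [Nat.mul_succ]; omega) 0 v (h0 v)
      rwa [zero_add] at h3
    · have h3 := ((Wtp.mono hanti (h₁.mul (hz g)) (s := M * J + 1)
        (by rw [Nat.mul_succ]; omega)).add (Wtp.mono hanti ((hz (H * g)).mul h₂)
        (s := M * J + 1) (by omega))) 0 v (h0 v)
      rwa [zero_add] at h3
    · exact hK2 _
  have e5 : 2 ^ J • ((ρ ^ 2 ^ a) v - v) = ((-1 : ℤ) ^ J) • (aeval ρ ((-2) ^ J * H)) v := by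
    have e6 : (aeval ρ H) v = (ρ ^ 2 ^ a) v - v := by
      rw [hHdef, map_sub, map_pow, aeval_X, map_one]
      rfl
    have e7 : (aeval ρ ((-2) ^ J * H)) v = ((-2 : ℤ) ^ J) • (aeval ρ H) v := by
      have : ((-2 : ℤ[X]) ^ J * H) = ((-2 : ℤ) ^ J) • H := by
        rw [zsmul_eq_mul]
        push_cast
        rfl
      rw [this, map_zsmul]
      rfl
    rw [e7, e6, smul_smul, ← mul_pow, ← natCast_zsmul]
    congr 1
  rw [e5]
  exact (As _).zsmul_mem hmain _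

end

end Pool.Agent.P4b
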