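import Pool.Agent.Lib.MP_1ad17e_al_h39.RowF

/-! # The layer relation in a group: the bridge of (5.2) -/

set_option autoImplicit false

namespace Pool.Agent.P4b

/-- (5.2), group form of the layer relation. -/
theorem layer_group {G : Type*} [Group G] (F : ℕ → Subgroup G) (M a : ℕ) (r : G) (hM : 1 ≤ M)
    (hanti : ∀ i j, i ≤ j → F j ≤ F i)
    (hconj : ∀ i, ∀ u ∈ F i, r⁻¹ * u * r ∈ F i)
    (hcomm : ∀ i j, ∀ u ∈ F i, ∀ w ∈ F j, u⁻¹ * w⁻¹ * u * w ∈ F (i + j))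
    (hsq : ∀ i, ∀ u ∈ F i, u ^ 2 ∈ F (i + M))
    (hs : ∀ i, ∀ u ∈ F i,
      u⁻¹ * ((r ^ (2 * 2 ^ a))⁻¹ * u * r ^ (2 * 2 ^ a)) ∈ F (i + (2 * M + 1)))
    {a' m J : ℕ} (h1 : m + 1 ≤ 2 * a') (h2 : m = a' + M * J) {v : G} (hv : v ∈ F a')
    (hv' : (fun u => u⁻¹ * (r⁻¹ * u * r))^[2 ^ a * (J + 1)] v ∈ F (m + 1)) :
    (v ^ 2 ^ J)⁻¹ * ((r ^ 2 ^ a)⁻¹ * v ^ 2 ^ J * r ^ 2 ^ a) ∈ F (m + 1) := by
  set N : Subgroup (F a') := (F (m + 1)).subgroupOf (F a') with hN
  have hmemN : ∀ u : F a', u ∈ N ↔ (u : G) ∈ F (m + 1) := fun u => Subgroup.mem_subgroupOf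
  have hconjF : ∀ w ∈ F a', ∀ u ∈ F (m + 1), w⁻¹ * u * w ∈ F (m + 1) := by
    intro w hw u hu
    have h3 := hanti _ _ (Nat.le_add_right (m + 1) a') (hcomm _ _ u hu w hw)
    have h4 := (F (m + 1)).mul_mem hu h3
    have e : u * (u⁻¹ * w⁻¹ * u * w) = w⁻¹ * u * w := by group
    rwa [e] at h4
  have hNn : N.Normal := by
    refine ⟨fun u hu w => ?_⟩
    rw [hmemN] at hu ⊢
    have h3 := hconjF _ ((F a').inv_mem w.2) _ hu
    rwa [inv_inv] at h3
  have hmulcomm : ∀ x y : F a' ⧸ N, x * y = y * x := by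
    intro x y
    obtain ⟨x, rfl⟩ := QuotientGroup.mk_surjective x
    obtain ⟨y, rfl⟩ := QuotientGroup.mk_surjective y
    rw [← QuotientGroup.mk_mul, ← QuotientGroup.mk_mul, QuotientGroup.eq, hmemN]
    have h3 := hanti (m + 1) _ (by omega) (hcomm _ _ y y.2 x x.2)
    have e : (((x * y)⁻¹ * (y * x) : F a') : G) = (y : G)⁻¹ * (x : G)⁻¹ * y * x := by
      push_cast
      group
    rwa [e]
  let _ : CommGroup (F a' ⧸ N) :=
    { (inferInstance : Group (F a' ⧸ N)) with mul_comm := hmulcomm }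
  -- the action of `r`
  let φ : F a' →* F a' :=
    { toFun := fun u => ⟨r⁻¹ * u * r, hconj a' u u.2⟩
      map_one' := by ext; simp
      map_mul' := fun u w => by
        ext
        change r⁻¹ * (u * w) * r = r⁻¹ * u * r * (r⁻¹ * w * r)
        group }
  have hφ : N ≤ N.comap φ := by
    intro u hu
    rw [Subgroup.mem_comap, hmemN]
    exact hconj _ _ ((hmemN u).1 hu)
  let ρ₀ : (F a' ⧸ N) →* (F a' ⧸ N) := QuotientGroup.map N N φ hφ
  let ρ : AddMonoid.End (Additive (F a' ⧸ N)) := MonoidHom.toAdditive ρ₀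
  let As : ℕ → AddSubgroup (Additive (F a' ⧸ N)) := fun i =>
    Subgroup.toAddSubgroup (((F (a' + i)).subgroupOf (F a')).map (QuotientGroup.mk' N))
  let π : F a' → Additive (F a' ⧸ N) := fun u => Additive.ofMul (QuotientGroup.mk u)
  have hπ : ∀ x : Additive (F a' ⧸ N), ∃ u, x = π u := by
    intro x
    obtain ⟨u, hu⟩ := QuotientGroup.mk_surjective (Additive.toMul x)
    exact ⟨u, by
      change x = Additive.ofMul (QuotientGroup.mk u)
      rw [hu]; rfl⟩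
  have hπmul : ∀ u w, π (u * w) = π u + π w := fun u w => rfl
  have hπinv : ∀ u, π u⁻¹ = - π u := fun u => rfl
  have hπρ : ∀ u : F a', ρ (π u) = π ⟨r⁻¹ * u * r, hconj a' u u.2⟩ := fun u => rfl
  have hAs : ∀ (i : ℕ) (u : F a'), (u : G) ∈ F (a' + i) → π u ∈ As i := by
    intro i u hu
    exact ⟨u, hu, rfl⟩
  have hAs' : ∀ i, ∀ x ∈ As i, ∃ u : F a', (u : G) ∈ F (a' + i) ∧ x = π u := by
    rintro i x ⟨u, hu, hx⟩
    exact ⟨u, hu, hx.symm⟩
  have hπ0 : ∀ u : F a', π u = 0 → (u : G) ∈ F (m + 1) := by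
    intro u hu
    have h3 : (QuotientGroup.mk u : F a' ⧸ N) = 1 := hu
    rw [QuotientGroup.eq_one_iff] at h3
    exact (hmemN u).1 h3
  have hπ0' : ∀ u : F a', (u : G) ∈ F (m + 1) → π u = 0 := by
    intro u hu
    exact (QuotientGroup.eq_one_iff u).2 ((hmemN u).2 hu)
  -- powers of `ρ`
  have hπρk : ∀ (k : ℕ) (u : F a') (hk : (r ^ k)⁻¹ * u * r ^ k ∈ F a'),
      (ρ ^ k) (π u) = π ⟨(r ^ k)⁻¹ * u * r ^ k, hk⟩ := by
    intro k
    induction k with
    | zero =>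
      intro u hk
      change π u = _
      congr 1
      ext
      simp
    | succ k ih =>
      intro u hk
      have e : r⁻¹ * ((r ^ k)⁻¹ * u * r ^ k) * r = (r ^ (k + 1))⁻¹ * u * r ^ (k + 1) := by
        rw [pow_succ, mul_inv_rev]; group
      have hk' : (r ^ k)⁻¹ * u * r ^ k ∈ F a' := by
        clear hk e ih
        induction k with
        | zero => simp
        | succ k ih =>
          have h3 := hconj _ _ ih
          have e : r⁻¹ * ((r ^ k)⁻¹ * u * r ^ k) * r = (r ^ (k + 1))⁻¹ * u * r ^ (k + 1) := by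
            rw [pow_succ, mul_inv_rev]; group
          rwa [e] at h3
      rw [pow_succ']
      change ρ ((ρ ^ k) (π u)) = _
      rw [ih u hk', hπρ]
      congr 1
      ext
      exact e
  have hrk : ∀ (k i : ℕ), ∀ u ∈ F i, (r ^ k)⁻¹ * u * r ^ k ∈ F i := by
    intro k i u hu
    induction k with
    | zero => simpa using hu
    | succ k ih =>
      have h3 := hconj _ _ ih
      have e : r⁻¹ * ((r ^ k)⁻¹ * u * r ^ k) * r = (r ^ (k + 1))⁻¹ * u * r ^ (k + 1) := by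
        rw [pow_succ, mul_inv_rev]; group
      rwa [e] at h3
  have hAbs := layer_relation ρ As M hM a
    (by
      intro x
      obtain ⟨u, rfl⟩ := hπ x
      exact hAs 0 u (by rw [add_zero]; exact u.2))
    (by
      intro i j hij x hx
      obtain ⟨u, hu, rfl⟩ := hAs' j x hx
      exact hAs i u (hanti _ _ (by omega) hu))
    (by
      intro i x hx
      obtain ⟨u, hu, rfl⟩ := hAs' i x hx
      rw [hπρ]
      exact hAs i _ (hconj _ _ hu))
    (by
      intro i x hx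
      obtain ⟨u, hu, rfl⟩ := hAs' i x hx
      rw [← hπmul]
      refine hAs _ _ ?_
      have h3 := hsq _ _ hu
      rw [add_assoc, sq] at h3
      exact h3)
    (by
      intro i x hx
      obtain ⟨u, hu, rfl⟩ := hAs' i x hx
      rw [hπρk _ u (hrk _ _ _ u.2), sub_eq_neg_add, ← hπinv, ← hπmul]
      refine hAs _ _ ?_
      have h3 := hs _ _ hu
      rw [add_assoc] at h3
      exact h3)
    (π ⟨v, hv⟩) J
    (by
      have key : ∀ k : ℕ, ∃ h3 : (fun u => u⁻¹ * (r⁻¹ * u * r))^[k] v ∈ F a',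
          ((ρ - 1) ^ k) (π ⟨v, hv⟩) = π ⟨_, h3⟩ := by
        intro k
        induction k with
        | zero => exact ⟨hv, rfl⟩
        | succ k ih =>
          obtain ⟨h3, h4⟩ := ih
          have h5 : (fun u => u⁻¹ * (r⁻¹ * u * r))^[k + 1] v ∈ F a' := by
            rw [Function.iterate_succ_apply']
            exact (F a').mul_mem ((F a').inv_mem h3) (hconj _ _ h3)
          refine ⟨h5, ?_⟩
          rw [pow_succ']
          change (ρ - 1) (((ρ - 1) ^ k) (π ⟨v, hv⟩)) = _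
          rw [h4]
          change ρ (π _) - π _ = _
          rw [hπρ, sub_eq_neg_add, ← hπinv, ← hπmul]
          congr 1
          ext
          change _ = (fun u => u⁻¹ * (r⁻¹ * u * r))^[k + 1] v
          rw [Function.iterate_succ_apply']
          rfl
      obtain ⟨h3, h4⟩ := key (2 ^ a * (J + 1))
      rw [h4]
      exact hπ0' _ hv')
  -- conclusion
  have hvJ : v ^ 2 ^ J ∈ F a' := (F a').pow_mem hv _
  have hπpow : ∀ (k : ℕ) (u : F a'), π (u ^ k) = k • π u := fun k u => rfl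
  have h5 : 2 ^ J • ((ρ ^ 2 ^ a) (π ⟨v, hv⟩) - π ⟨v, hv⟩) =
      π ⟨(v ^ 2 ^ J)⁻¹ * ((r ^ 2 ^ a)⁻¹ * v ^ 2 ^ J * r ^ 2 ^ a),
        (F a').mul_mem ((F a').inv_mem hvJ) (hrk _ _ _ hvJ)⟩ := by
    rw [smul_sub, ← map_nsmul, ← hπpow]
    have e : (⟨v, hv⟩ : F a') ^ 2 ^ J = ⟨v ^ 2 ^ J, hvJ⟩ := rfl
    rw [e, hπρk _ _ (hrk _ _ _ hvJ), sub_eq_neg_add, ← hπinv, ← hπmul]
    rfl
  rw [h5] at hAbs
  obtain ⟨u, hu, hx⟩ := hAs' _ _ hAbs
  have h6 : π u = 0 := hπ0' u (by rw [h2]; rw [← add_assoc] at hu; exact hu)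
  rw [h6] at hx
  exact hπ0 _ hx

end Pool.Agent.P4b
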