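import Pool.Agent.Lib.MP_1ad17e_al_h39.RowC2
import Pool.Agent.Lib.MP_1ad17e_al_h39.RowF2

/-! Row G1, (5.2). -/

set_option autoImplicit false

namespace E1adH39

open Subgroup
open scoped commutatorElement

variable {G : Type*} [Group G]

private theorem iter_mem (T : Subgroup G) {r : G} (hr : r ∈ T) {a : ℕ} {v : G}
    (hv : v ∈ T.lowerCentralSeries a) (k : ℕ) :
    (fun u => u⁻¹ * (r⁻¹⁻¹ * u * r⁻¹))^[k] v ∈ T.lowerCentralSeries (a + k) := by
  induction k with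
  | zero => exact hv
  | succ k ih =>
    rw [Function.iterate_succ_apply']
    have h1 := commutator_mem_commutator (inv_mem ih) hr
    rw [← Subgroup.lowerCentralSeries_succ, commutatorElement_def] at h1
    have e : ∀ u : G, u⁻¹ * r * u⁻¹⁻¹ * r⁻¹ = u⁻¹ * (r⁻¹⁻¹ * u * r⁻¹) := fun u => by group
    rw [e] at h1
    exact h1

/-- (5.2). RECIPE: helper16's `layer_group` (store) on `F (om + M j')`, `m = om + M j`; the iterated
commutators of `v ^ (2 ^ j')` with `r` lie in `T.lowerCentralSeries (a + i)`, which is `⊥` for `a + i ≥ n`;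
`[F_i, s] ≤ F (i + 2M + 1)` as `s ∈ F (2M+1)`. -/
theorem layer_x [Finite G] (D : Dat G) {om a j j' : ℕ} {v : G} (hv : v ∈ D.F om)
    (hvT : v ∈ D.T.lowerCentralSeries a) (hj : j' ≤ j) (h2 : om + D.M * j + 1 ≤ 2 * (om + D.M * j'))
    (hn : D.n ≤ a + D.N0 * (j - j' + 1)) :
    D.x * v ^ (2 ^ j) * D.x⁻¹ * (v ^ (2 ^ j))⁻¹ ∈ D.F (om + D.M * j + 1) := by
  have hl := D.hl
  have hlong : 2 * 2 ^ (D.l - 1) = 2 ^ D.l := by
    rw [← pow_succ']
    congr 1
    omega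
  have hvj : v ^ (2 ^ j') ∈ D.F (om + D.M * j') := D.F_pow hv j'
  have hvj' : v ^ (2 ^ j') ∈ D.T.lowerCentralSeries a := pow_mem hvT _
  have hmul : D.M * j = D.M * j' + D.M * (j - j') := by
    rw [← mul_add, Nat.add_sub_cancel' hj]
  have key := Pool.Agent.P4b.layer_group D.F D.M (D.l - 1) D.r⁻¹ (by unfold Dat.M; omega)
    (fun i j h => D.F_anti h)
    (fun i u hu => by
      rw [inv_inv]
      exact D.conj_mem_F hu D.r)
    (fun i j u hu w hw => by
      have h3 := D.F_comm (inv_mem hu) (inv_mem hw)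
      rw [commutatorElement_def, inv_inv, inv_inv] at h3
      exact h3)
    (fun i u hu => by
      rw [sq]
      exact D.F_sq hu)
    (fun i u hu => by
      have h3 := D.F_comm (inv_mem hu) (D.s_mem_F (m := 2 * D.M + 1) le_rfl)
      rw [commutatorElement_def] at h3
      rw [hlong, inv_pow, inv_inv]
      have e : u⁻¹ * (D.r ^ 2 ^ D.l * u * (D.r ^ 2 ^ D.l)⁻¹) = u⁻¹ * D.s * u⁻¹⁻¹ * D.s⁻¹ := by
        unfold Dat.s
        group
      rw [e]
      exact h3)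
    (a' := om + D.M * j') (m := om + D.M * j) (J := j - j') h2 (by rw [hmul]; ring) hvj
    (by
      have h3 := iter_mem D.T D.hr hvj' (2 ^ (D.l - 1) * (j - j' + 1))
      have h4 := D.T.lowerCentralSeries_antitone hn h3
      rw [D.hTn, mem_bot] at h4
      rw [h4]
      exact one_mem _)
  have e1 : (v ^ 2 ^ j') ^ 2 ^ (j - j') = v ^ 2 ^ j := by
    rw [← pow_mul, ← pow_add, Nat.add_sub_cancel' hj]
  rw [e1, inv_pow, inv_inv] at key
  have h5 := D.conj_mem_F key (v ^ 2 ^ j)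
  have e2 : v ^ 2 ^ j * ((v ^ 2 ^ j)⁻¹ * (D.r ^ 2 ^ (D.l - 1) * v ^ 2 ^ j *
      (D.r ^ 2 ^ (D.l - 1))⁻¹)) * (v ^ 2 ^ j)⁻¹ =
      D.x * v ^ (2 ^ j) * D.x⁻¹ * (v ^ (2 ^ j))⁻¹ := by
    unfold Dat.x
    group
  rw [e2] at h5
  exact h5

end E1adH39
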