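import Mathlib

/-! Row H, the numerics of (6.1'). -/

set_option autoImplicit false

namespace E1adH39

private theorem num_pow {l N0 : ℕ} (hl : 3 ≤ l) (hN0 : N0 = 2 ^ (l - 1)) :
    4 ≤ N0 ∧ l + 1 ≤ N0 ∧ 2 * l - 2 ≤ N0 := by
  obtain ⟨k, rfl⟩ : ∃ k, l = k + 3 := ⟨l - 3, by omega⟩
  have e : N0 = 4 * 2 ^ k := by
    rw [hN0, show k + 3 - 1 = k + 2 from by omega, pow_add]
    ring
  have h : k + 1 ≤ 2 ^ k := Nat.lt_two_pow_self
  omega

/-- RECIPE. Let `j'` be minimal with `m + 1 ≤ 2 (om + M j')` (exists, `≤ j`, since `m ≥ 1`). Suppose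
`a + N0 (j - j' + 1) < n`. Case `j' = 0`: `hI` with `a + 1 ≤ n - N0 (j + 1)` and `b + 1 ≤ n` gives
`m ≤ M (n - N0 + 1 - (N0 - 2) j) + 2 n ≤ M (n - l) + 2 n < M (e + 1) + 1` (over the integers; `N0 ≥ l + 1`),
contradiction. Case `j' ≥ 1`: `2 (om + M (j' - 1)) ≤ m`, so `m ≤ 2 M (J + 1)`, `J = j - j'`,
`N0 (J + 1) ≤ n - 1`, `2 m ≤ M (n - 1)`, with `m ≥ M (e + 1) + 1`: `2 (n - l + 1) < n - 1`, `n < 2 l - 3`,
but `n - 1 ≥ N0 ≥ 2 l - 2`. -/
theorem num {n l e N0 M om a b j m : ℕ} (hl : 3 ≤ l) (hN0 : N0 = 2 ^ (l - 1)) (hM : M = 2 * n + 2)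
    (hn : n ≤ l + e) (hom : M + 1 ≤ om) (hI : N0 * om ≤ M * ((N0 - 1) * (a + 1) + (b + 1)) + 2 * N0 * (a + 1))
    (hm : om + M * j = m) (hm0 : M * (e + 1) + 1 ≤ m) (hb : b + 1 ≤ n) :
    ∃ j' ≤ j, m + 1 ≤ 2 * (om + M * j') ∧ n ≤ a + N0 * (j - j' + 1) := by
  obtain ⟨h4, hl1, hl2⟩ := num_pow hl hN0
  have hex : ∃ j', m + 1 ≤ 2 * (om + M * j') := ⟨j, by omega⟩
  have hj'1 := Nat.find_spec hex
  have hj'2 : Nat.find hex ≤ j := Nat.find_min' hex (by omega)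
  have hmin : ∀ i < Nat.find hex, 2 * (om + M * i) ≤ m := fun i hi => by
    have := Nat.find_min hex hi
    omega
  generalize Nat.find hex = j' at hj'1 hj'2 hmin
  refine ⟨j', hj'2, hj'1, ?_⟩
  by_contra hlt
  push Not at hlt
  rcases Nat.eq_zero_or_pos j' with h0 | h0
  · subst h0
    rw [Nat.sub_zero] at hlt
    have hI' : (N0 : ℤ) * om ≤ M * ((N0 - 1) * (a + 1) + (b + 1)) + 2 * N0 * (a + 1) := by
      have h1 : ((N0 - 1 : ℕ) : ℤ) = (N0 : ℤ) - 1 := by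
        rw [Nat.cast_sub (by omega)]
        simp
      have := (Nat.cast_le (α := ℤ)).2 hI
      push_cast at this
      rw [h1] at this
      exact this
    have hlt' : (a : ℤ) + 1 ≤ n - N0 * (j + 1) := by
      have : a + N0 * (j + 1) + 1 ≤ n := hlt
      have := (Nat.cast_le (α := ℤ)).2 this
      push_cast at this
      linarith
    have hb' : (b : ℤ) + 1 ≤ n := by exact_mod_cast hb
    have hm' : (om : ℤ) + M * j = m := by exact_mod_cast hm
    have hm0' : (M : ℤ) * (e + 1) + 1 ≤ m := by exact_mod_cast hm0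
    have hM' : (M : ℤ) = 2 * n + 2 := by exact_mod_cast hM
    have hn' : (n : ℤ) ≤ l + e := by exact_mod_cast hn
    have h4' : (4 : ℤ) ≤ N0 := by exact_mod_cast h4
    have hl1' : (l : ℤ) + 1 ≤ N0 := by exact_mod_cast hl1
    have hj : (0 : ℤ) ≤ j := by positivity
    have hM0 : (0 : ℤ) ≤ M := by positivity
    have hN1 : (0 : ℤ) ≤ (N0 : ℤ) - 1 := by linarith
    have s1 : ((N0 : ℤ) - 1) * (a + 1) + (b + 1) ≤ N0 * (n - (N0 - 1) * (j + 1)) := by
      have := mul_le_mul_of_nonneg_left hlt' hN1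
      nlinarith
    have s2 : (M : ℤ) * (((N0 : ℤ) - 1) * (a + 1) + (b + 1)) ≤
        M * (N0 * (n - (N0 - 1) * (j + 1))) := mul_le_mul_of_nonneg_left s1 hM0
    have s3 : 2 * (N0 : ℤ) * (a + 1) ≤ 2 * N0 * n := by
      refine mul_le_mul_of_nonneg_left ?_ (by linarith)
      have : (0 : ℤ) ≤ N0 * (j + 1) := by positivity
      linarith
    have s4 : (N0 : ℤ) * om ≤ N0 * (M * (n - (N0 - 1) * (j + 1)) + 2 * n) := by
      calc (N0 : ℤ) * om ≤ M * (N0 * (n - (N0 - 1) * (j + 1))) + 2 * N0 * n := by linarith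
        _ = N0 * (M * (n - (N0 - 1) * (j + 1)) + 2 * n) := by ring
    have s5 : (om : ℤ) ≤ M * (n - (N0 - 1) * (j + 1)) + 2 * n :=
      le_of_mul_le_mul_left s4 (by linarith)
    have s6 : (n : ℤ) - (N0 - 1) * (j + 1) + j ≤ e := by
      have : (0 : ℤ) ≤ (N0 - 2) * j := mul_nonneg (by linarith) hj
      nlinarith
    have s7 : (M : ℤ) * (n - (N0 - 1) * (j + 1) + j) ≤ M * e := mul_le_mul_of_nonneg_left s6 hM0
    nlinarith
  · have hp := hmin (j' - 1) (by omega)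
    obtain ⟨i, rfl⟩ : ∃ i, j' = i + 1 := ⟨j' - 1, by omega⟩
    obtain ⟨J, rfl⟩ : ∃ J, j = i + 1 + J := ⟨j - (i + 1), by omega⟩
    rw [Nat.add_sub_cancel] at hp
    rw [Nat.add_sub_cancel_left] at hlt
    have q1 : m ≤ 2 * (M * (J + 1)) := by
      have : M * (i + 1 + J) = M * i + M * (J + 1) := by ring
      omega
    have q2 : 4 * (J + 1) ≤ N0 * (J + 1) := Nat.mul_le_mul_right _ h4
    have q3 : 4 * (J + 1) ≤ n - 1 := by omega
    have q4 : M * (4 * (J + 1)) ≤ M * (n - 1) := Nat.mul_le_mul_left _ q3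
    have q5 : 2 * (M * (e + 1)) + 2 ≤ M * (n - 1) := by
      have : M * (4 * (J + 1)) = 2 * (2 * (M * (J + 1))) := by ring
      omega
    have q6 : 2 * (e + 1) < n - 1 := by
      by_contra hcon
      push Not at hcon
      have := Nat.mul_le_mul_left M hcon
      have h' : M * (2 * (e + 1)) = 2 * (M * (e + 1)) := by ring
      omega
    have q7 : N0 ≤ N0 * (J + 1) := Nat.le_mul_of_pos_right _ (by omega)
    omega

end E1adH39
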