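import Pool.Agent.Lib.MP_1ad17e_al_h39.RowE2
import Pool.Agent.Lib.MP_1ad17e_al_h39.RowG1
import Pool.Agent.Lib.MP_1ad17e_al_h39.RowH

/-! Row G2, (6.1'). -/

set_option autoImplicit false

namespace E1adH39

open Subgroup
open scoped commutatorElement

variable {G : Type*} [Group G]

/-- (6.1') -/
theorem x_trivial [Finite G] (D : Dat G) {e m : ℕ} (he : D.n ≤ D.l + e) (hm : D.M * (e + 1) + 1 ≤ m)
    {u : G} (hu : u ∈ D.F m) : D.x * u * D.x⁻¹ * u⁻¹ ∈ D.F (m + 1) := by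
  -- the subgroup of all `u` with the property
  let S : Subgroup G :=
    { carrier := {u | D.x * u * D.x⁻¹ * u⁻¹ ∈ D.F (m + 1)}
      one_mem' := by simp [one_mem]
      mul_mem' := by
        intro u w hu hw
        change D.x * (u * w) * D.x⁻¹ * (u * w)⁻¹ ∈ D.F (m + 1)
        have e1 : D.x * (u * w) * D.x⁻¹ * (u * w)⁻¹ =
            (D.x * u * D.x⁻¹ * u⁻¹) * (u * (D.x * w * D.x⁻¹ * w⁻¹) * u⁻¹) := by group
        rw [e1]
        exact mul_mem hu (D.conj_mem_F hw u)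
      inv_mem' := by
        intro u hu
        change D.x * u⁻¹ * D.x⁻¹ * u⁻¹⁻¹ ∈ D.F (m + 1)
        have e1 : D.x * u⁻¹ * D.x⁻¹ * u⁻¹⁻¹ =
            u⁻¹ * (D.x * u * D.x⁻¹ * u⁻¹)⁻¹ * u⁻¹⁻¹ := by group
        rw [e1]
        exact D.conj_mem_F (inv_mem hu) u⁻¹ }
  have hFS : D.F (m + 1) ≤ S := by
    intro u hu
    change D.x * u * D.x⁻¹ * u⁻¹ ∈ D.F (m + 1)
    exact mul_mem (D.conj_mem_F hu D.x) (inv_mem hu)
  suffices hgS : closure (D.X m) ≤ S from (sup_le hgS hFS) (F_le_closure D m hu)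
  rw [closure_le]
  rintro z (⟨om, v, a, b, j, hg, hmj, rfl⟩ | ⟨j, hmj, rfl⟩)
  · change D.x * v ^ (2 ^ j) * D.x⁻¹ * (v ^ (2 ^ j))⁻¹ ∈ D.F (m + 1)
    by_cases hbn : D.n ≤ b
    · obtain ⟨v', hv'F, hv'T, hvv⟩ := hg.hT2
      have h1 := D.T2.lowerCentralSeries_antitone hbn hv'T
      have h2 : D.T2.lowerCentralSeries D.n = ⊥ := by
        unfold Dat.T2
        rw [← map_lowerCentralSeries, D.hTn, Subgroup.map_bot]
      rw [h2] at h1
      rw [mem_bot.1 h1, one_mul] at hvv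
      have h3 := D.F_pow (inv_mem hvv) j
      rw [inv_inv] at h3
      have e1 : om + 1 + D.M * j = m + 1 := by omega
      rw [e1] at h3
      exact hFS h3
    · push Not at hbn
      obtain ⟨j', hj', h1, h2⟩ := num (N0 := D.N0) (M := D.M) D.hl rfl rfl he hg.hom hg.hI hmj hm (by omega)
      have h3 := layer_x D hg.hv hg.hT1 hj' (by rw [hmj]; exact h1) h2
      rwa [hmj] at h3
  · change D.x * D.s ^ (2 ^ j) * D.x⁻¹ * (D.s ^ (2 ^ j))⁻¹ ∈ D.F (m + 1)
    have hc : Commute D.x (D.s ^ (2 ^ j)) := by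
      unfold Dat.x Dat.s
      rw [← pow_mul]
      exact Commute.pow_pow_self D.r _ _
    rw [hc.eq, mul_inv_cancel_right, mul_inv_cancel]
    exact one_mem _

end E1adH39
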