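import Pool.Agent.Lib.MP_1ad17e_al_h39.RowG2
import Pool.Agent.Lib.MP_1ad17e_al_h39.RowC1

/-! Row G3, (6.2'). -/

set_option autoImplicit false

namespace E1adH39

open Subgroup
open scoped commutatorElement

variable {G : Type*} [Group G]

/-- coprime action -/
private theorem coprime_act [Finite G] (D : Dat G) {mb : ℕ} (hbot : D.F mb = ⊥) {ρ : G}
    (hρ : Odd (orderOf ρ)) {m0 : ℕ}
    (h : ∀ m, m0 ≤ m → ∀ u ∈ D.F m, ρ * u * ρ⁻¹ * u⁻¹ ∈ D.F (m + 1)) :
    ∀ u ∈ D.F m0, Commute ρ u := by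
  have key : ∀ k m, m0 ≤ m → mb ≤ m + k → ∀ u ∈ D.F m, Commute ρ u := by
    intro k
    induction k with
    | zero =>
      intro m _ hm u hu
      have h1 := D.F_anti hm hu
      rw [hbot] at h1
      rw [mem_bot.1 h1]
      exact Commute.one_right _
    | succ k ih =>
      intro m hm0 hm u hu
      have hf := h m hm0 u hu
      set f := ρ * u * ρ⁻¹ * u⁻¹ with hfdef
      have hfc : Commute ρ f := ih (m + 1) (by omega) (by omega) f hf
      have h1 : ∀ i : ℕ, ρ ^ i * u * (ρ ^ i)⁻¹ = f ^ i * u := by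
        intro i
        induction i with
        | zero => simp
        | succ i ih =>
          have e : ρ ^ (i + 1) * u * (ρ ^ (i + 1))⁻¹ = ρ * (ρ ^ i * u * (ρ ^ i)⁻¹) * ρ⁻¹ := by
            rw [pow_succ', mul_inv_rev]; group
          rw [e, ih]
          have e2 : ρ * (f ^ i * u) * ρ⁻¹ = (ρ * f ^ i * ρ⁻¹) * (ρ * u * ρ⁻¹) := by group
          have e3 : ρ * f ^ i * ρ⁻¹ = f ^ i := by
            rw [(hfc.pow_right i).eq, mul_inv_cancel_right]
          have e4 : ρ * u * ρ⁻¹ = f * u := by rw [hfdef]; group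
          rw [e2, e3, e4, pow_succ]
          exact (mul_assoc _ _ _).symm
      have h2 := h1 (orderOf ρ)
      rw [pow_orderOf_eq_one, inv_one, one_mul, mul_one] at h2
      have h3 : f ^ orderOf ρ = 1 := by
        have := congrArg (fun t => t * u⁻¹) h2
        simpa using this.symm
      obtain ⟨e, he⟩ := D.hT ⟨f, D.hQT (D.F_le _ hf)⟩
      have he' : f ^ 2 ^ e = 1 := by
        have := congrArg Subtype.val he
        simpa using this
      have h4 : orderOf f ∣ Nat.gcd (orderOf ρ) (2 ^ e) :=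
        Nat.dvd_gcd (orderOf_dvd_of_pow_eq_one h3) (orderOf_dvd_of_pow_eq_one he')
      have h5 : Nat.gcd (orderOf ρ) (2 ^ e) = 1 := (Nat.Coprime.pow_right e hρ.coprime_two_right)
      rw [h5, Nat.dvd_one, orderOf_eq_one_iff] at h4
      have h6 : ρ * u * ρ⁻¹ = u := by
        have : f * u = u := by rw [h4, one_mul]
        rw [hfdef] at this
        simpa using this
      rw [commute_iff_eq]
      calc ρ * u = (ρ * u * ρ⁻¹) * ρ := by group
        _ = u * ρ := by rw [h6]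
  exact key mb m0 le_rfl (by omega)

/-- (6.2') -/
theorem main_local [Finite G] (D : Dat G) {e : ℕ} (he : D.n ≤ D.l + e) {ρ : G} (hρ : ρ ∈ D.L)
    (ho : Odd (orderOf ρ)) {w : G} (hw : w ∈ D.Q) : Commute ρ (w ^ (2 ^ e)) := by
  have h62 : ∀ m, D.M * (e + 1) + 1 ≤ m → ∀ u ∈ D.F m, ρ * u * ρ⁻¹ * u⁻¹ ∈ D.F (m + 1) := by
    intro m hm
    let C : Subgroup G :=
      { carrier := {g | ∀ u ∈ D.F m, g * u * g⁻¹ * u⁻¹ ∈ D.F (m + 1)}
        one_mem' := by
          intro u hu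
          simp [one_mem]
        mul_mem' := by
          intro g h hg hh u hu
          have e1 : g * h * u * (g * h)⁻¹ * u⁻¹ =
              (g * (h * u * h⁻¹) * g⁻¹ * (h * u * h⁻¹)⁻¹) * (h * u * h⁻¹ * u⁻¹) := by group
          rw [e1]
          exact mul_mem (hg _ (D.conj_mem_F hu h)) (hh u hu)
        inv_mem' := by
          intro g hg u hu
          have h1 := inv_mem (hg _ (D.conj_mem_F hu g⁻¹))
          have e1 : (g * (g⁻¹ * u * g⁻¹⁻¹) * g⁻¹ * (g⁻¹ * u * g⁻¹⁻¹)⁻¹)⁻¹ =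
              g⁻¹ * u * g⁻¹⁻¹ * u⁻¹ := by group
          rwa [e1] at h1 }
    have hC : C.Normal := by
      refine ⟨fun g hg h => ?_⟩
      intro u hu
      have h1 := D.conj_mem_F (hg _ (D.conj_mem_F hu h⁻¹)) h
      have e1 : h * (g * (h⁻¹ * u * h⁻¹⁻¹) * g⁻¹ * (h⁻¹ * u * h⁻¹⁻¹)⁻¹) * h⁻¹ =
          h * g * h⁻¹ * u * (h * g * h⁻¹)⁻¹ * u⁻¹ := by group
      rwa [e1] at h1
    have hxC : D.x ∈ C := fun u hu => x_trivial D he hm hu
    have h2 : D.L ≤ C := normalClosure_le_normal (by simpa using hxC)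
    exact h2 hρ
  obtain ⟨mb, hbot⟩ := F_bot D
  refine coprime_act D hbot ho h62 _ ?_
  have h := D.F_pow (D.Q_le_F le_rfl hw) e
  have e1 : D.M + 1 + D.M * e = D.M * (e + 1) + 1 := by ring
  rwa [e1] at h

end E1adH39
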